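import Pool.Agent.Helper98.EY.StmtsB

set_option autoImplicit false

/-! Module BB: the bucket brigade in both halves. -/

namespace Pool.Agent.Helper98.EX

open Finset

/-! ### windows indexed by pairs -/

lemma bb_par (hPAR : ST_PAR) {N : ℕ} {r l : ℕ → ℝ} (hAdm : Adm N r l) (W : Finset (ℕ × ℕ))
    (m : ℕ) (G : ℕ × ℕ → Set (Cfg N)) (err : ℕ × ℕ → ℝ) (η : Cfg N)
    (h1 : ∀ q ∈ W, q.1 ≤ q.2 ∧ q.2 ≤ N)
    (h2 : ∀ q ∈ W, ∀ q' ∈ W, q ≠ q' → q.2 ≤ q'.1 ∨ q'.2 ≤ q.1)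
    (h3 : ∀ q ∈ W, ∀ η ξ : Cfg N, (∀ x, q.1 ≤ x → x < q.2 → occ η x = occ ξ x) →
      (η ∈ G q ↔ ξ ∈ G q))
    (h4 : ∀ q ∈ W, pr r l (fun _ => Finset.Ioo q.1 q.2) m (G q)ᶜ η ≤ err q) :
    pr r l (fun _ => W.biUnion (fun q => Finset.Ioo q.1 q.2)) m
      {ξ | ¬ ((∀ q ∈ W, ξ ∈ G q ∧ cnt ξ q.1 q.2 = cnt η q.1 q.2) ∧
        (∀ x, (∀ q ∈ W, x < q.1 ∨ q.2 ≤ x) → occ ξ x = occ η x))} η ≤ ∑ q ∈ W, err q := by
  have hu : ∀ q : ℕ × ℕ, Nat.unpair (Nat.pair q.1 q.2) = q := fun q => by simp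
  have key := hPAR N r l (W.image (fun q => Nat.pair q.1 q.2)) (fun i => (Nat.unpair i).1)
    (fun i => (Nat.unpair i).2) (fun i _ => Finset.Ioo (Nat.unpair i).1 (Nat.unpair i).2) m
    (fun i => G (Nat.unpair i)) (fun i => err (Nat.unpair i)) η hAdm
    (by
      intro i hi
      obtain ⟨q, hq, rfl⟩ := Finset.mem_image.1 hi
      rw [hu]
      exact h1 q hq)
    (by
      intro i hi j hj hij
      obtain ⟨q, hq, rfl⟩ := Finset.mem_image.1 hi
      obtain ⟨q', hq', rfl⟩ := Finset.mem_image.1 hj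
      rw [hu, hu]
      refine h2 q hq q' hq' ?_
      rintro rfl
      exact hij rfl)
    (fun i _ t => Finset.Subset.refl _)
    (by
      intro i hi
      obtain ⟨q, hq, rfl⟩ := Finset.mem_image.1 hi
      rw [hu]
      exact h3 q hq)
    (by
      intro i hi
      obtain ⟨q, hq, rfl⟩ := Finset.mem_image.1 hi
      rw [hu]
      exact h4 q hq)
  have e1 : ∑ i ∈ W.image (fun q => Nat.pair q.1 q.2), err (Nat.unpair i) = ∑ q ∈ W, err q := by
    rw [Finset.sum_image]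
    · refine Finset.sum_congr rfl fun q _ => ?_
      rw [hu]
    · intro q _ q' _ h
      have := congrArg Nat.unpair h
      simp only at this
      rwa [hu, hu] at this
  have e2 : (W.image (fun q => Nat.pair q.1 q.2)).biUnion
      (fun i => Finset.Ioo (Nat.unpair i).1 (Nat.unpair i).2) =
      W.biUnion (fun q => Finset.Ioo q.1 q.2) := by
    rw [Finset.image_biUnion]
    refine Finset.biUnion_congr rfl fun q _ => ?_
    rw [hu]
  rw [e1] at key
  simp only [e2] at key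
  refine le_trans (pr_mono hAdm _ m ?_ η) key
  intro ξ hξ hcon
  apply hξ
  obtain ⟨c1, c2⟩ := hcon
  refine ⟨?_, ?_⟩
  · intro q hq
    have := c1 (Nat.pair q.1 q.2) (Finset.mem_image_of_mem _ hq)
    rw [hu] at this
    exact this
  · intro x hx
    apply c2
    intro i hi
    obtain ⟨q, hq, rfl⟩ := Finset.mem_image.1 hi
    rw [hu]
    exact hx q hq

/-! ### mirroring -/

lemma bb_mirS {N a b : ℕ} (hb : b ≤ N) :
    mirS N (Finset.Ioo (N - b) (N - a)) = Finset.Ioo a b := by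
  ext y
  unfold mirS full
  simp only [Finset.mem_image, Finset.mem_inter, Finset.mem_Ioo, Finset.mem_Ico]
  constructor
  · rintro ⟨x, hx, rfl⟩
    omega
  · intro hy
    exact ⟨N - y, by omega, by omega⟩

lemma bb_mirpr (hMIR : ST_MIR) {N a b : ℕ} {r l : ℕ → ℝ} (hb : b ≤ N) (m : ℕ)
    (E : Set (Cfg N)) (η : Cfg N) :
    pr r l (fun _ => Finset.Ioo (N - b) (N - a)) m {ξ | mir ξ ∈ E} η =
      pr (mirr N r) (mirr N l) (fun _ => Finset.Ioo a b) m E (mir η) := by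
  obtain ⟨h1, -, -, h4⟩ := hMIR N
  unfold pr
  rw [h4, bb_mirS hb]
  congr 1
  funext ζ
  have e1 : mir ζ ∈ {ξ : Cfg N | mir ξ ∈ E} ↔ ζ ∈ E := by
    rw [Set.mem_ofPred_eq, h1]
  by_cases h : ζ ∈ E
  · rw [ind_of_mem h, ind_of_mem (e1.2 h)]
  · rw [ind_of_not_mem h, ind_of_not_mem (fun h' => h (e1.1 h'))]

lemma bb_cnt (hMIR : ST_MIR) {N a b : ℕ} (hab : a ≤ b) (hb : b ≤ N) (η : Cfg N) :
    cnt (mir η) a b + cnt η (N - b) (N - a) = b - a := by
  obtain ⟨-, -, h3, -⟩ := hMIR N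
  have e1 := h3 η a (hab.trans hb)
  have e2 := h3 η b hb
  have e3 := ht_cnt (mir η) hab hb
  have e4 := ht_cnt η (A := N - b) (B := N - a) (by omega) (by omega)
  omega

lemma bb_occ (hMIR : ST_MIR) {N : ℕ} (η : Cfg N) {x : ℕ} (hx : x < N) :
    occ (mir η) x = !(occ η (N - 1 - x)) := (hMIR N).2.1 η x hx

lemma bb_adm {N : ℕ} {r l : ℕ → ℝ} (h : Adm N r l) : Adm N (mirr N r) (mirr N l) := by
  intro x h1 h2
  unfold mirr
  exact h (N - x) (by omega) (by omega)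

/-! ### one phase -/

/-- all windows -/
def bb_T (N : ℕ) (W W' W0 : Finset (ℕ × ℕ)) : Finset (ℕ × ℕ) :=
  (W ∪ W'.image (fun q => (N - q.2, N - q.1))) ∪ W0

/-- open bonds of a phase -/
def bb_S (N : ℕ) (W W' W0 : Finset (ℕ × ℕ)) : Finset ℕ :=
  (bb_T N W W' W0).biUnion (fun q => Finset.Ioo q.1 q.2)

/-- result of a phase -/
def bb_Out {N : ℕ} (x0 : ℕ) (W W' W0 : Finset (ℕ × ℕ)) (Ev Ev' Ev0 : ℕ × ℕ → Set (Cfg N))
    (η ξ : Cfg N) : Prop :=
  (∀ q ∈ W, ξ ∈ Ev q ∧ cnt ξ q.1 q.2 = cnt η q.1 q.2) ∧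
  (∀ q ∈ W', mir ξ ∈ Ev' q ∧ cnt (mir ξ) q.1 q.2 = cnt (mir η) q.1 q.2) ∧
  (∀ q ∈ W0, ξ ∈ Ev0 q ∧ cnt ξ q.1 q.2 = cnt η q.1 q.2) ∧
  (∀ x, x < x0 → (∀ q ∈ W, x < q.1 ∨ q.2 ≤ x) → (∀ q ∈ W0, x < q.1) → occ ξ x = occ η x) ∧
  (∀ x, x < N - x0 → (∀ q ∈ W', x < q.1 ∨ q.2 ≤ x) → (∀ q ∈ W0, x < N - q.2) →
    occ (mir ξ) x = occ (mir η) x)

/-- local event -/
def bb_loc {N : ℕ} (W : Finset (ℕ × ℕ)) (Ev : ℕ × ℕ → Set (Cfg N)) : Prop :=
  ∀ q ∈ W, ∀ η ξ : Cfg N, (∀ x, q.1 ≤ x → x < q.2 → occ η x = occ ξ x) →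
    (η ∈ Ev q ↔ ξ ∈ Ev q)

lemma bb_phase (hPAR : ST_PAR) (hMIR : ST_MIR) {N : ℕ} {r l : ℕ → ℝ} (hAdm : Adm N r l)
    {x0 m : ℕ} (hx0 : x0 ≤ N) (W W' W0 : Finset (ℕ × ℕ)) (Ev Ev' Ev0 : ℕ × ℕ → Set (Cfg N))
    (e : ℝ) (he : 0 ≤ e) (η : Cfg N)
    (hW : ∀ q ∈ W, q.1 < q.2 ∧ q.2 ≤ x0)
    (hWd : ∀ q ∈ W, ∀ q' ∈ W, q ≠ q' → q.2 ≤ q'.1 ∨ q'.2 ≤ q.1)
    (hW' : ∀ q ∈ W', q.1 < q.2 ∧ q.2 ≤ N - x0)
    (hWd' : ∀ q ∈ W', ∀ q' ∈ W', q ≠ q' → q.2 ≤ q'.1 ∨ q'.2 ≤ q.1)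
    (hW0 : ∀ q ∈ W0, q.1 < x0 ∧ x0 < q.2 ∧ q.2 ≤ N ∧ (∀ q' ∈ W, q'.2 ≤ q.1) ∧
      ∀ q' ∈ W', q'.2 ≤ N - q.2)
    (hW01 : ∀ q ∈ W0, ∀ q' ∈ W0, q = q')
    (lE : bb_loc W Ev) (lE' : bb_loc W' Ev') (lE0 : bb_loc W0 Ev0)
    (p1 : ∀ q ∈ W, pr r l (fun _ => Finset.Ioo q.1 q.2) m (Ev q)ᶜ η ≤ e)
    (p2 : ∀ q ∈ W', pr (mirr N r) (mirr N l) (fun _ => Finset.Ioo q.1 q.2) m (Ev' q)ᶜ
      (mir η) ≤ e)
    (p3 : ∀ q ∈ W0, pr r l (fun _ => Finset.Ioo q.1 q.2) m (Ev0 q)ᶜ η ≤ e) :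
    pr r l (fun _ => bb_S N W W' W0) m {ξ | ¬ bb_Out x0 W W' W0 Ev Ev' Ev0 η ξ} η ≤
      ((W.card + W'.card + W0.card : ℕ) : ℝ) * e := by
  classical
  obtain ⟨G, hG⟩ : ∃ G : ℕ × ℕ → Set (Cfg N), G = fun q => if q.2 ≤ x0 then Ev q else
      if x0 ≤ q.1 then {ξ | mir ξ ∈ Ev' (N - q.2, N - q.1)} else Ev0 q := ⟨_, rfl⟩
  have g1 : ∀ q ∈ W, G q = Ev q := by
    intro q hq
    have := (hW q hq).2
    rw [hG]
    simp only
    rw [if_pos this]
  have g2 : ∀ q ∈ W', G (N - q.2, N - q.1) = {ξ | mir ξ ∈ Ev' q} := by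
    intro q hq
    obtain ⟨a1, a2⟩ := hW' q hq
    rw [hG]
    simp only
    rw [if_neg (by omega), if_pos (by omega)]
    have e1 : N - (N - q.1) = q.1 := by omega
    have e2 : N - (N - q.2) = q.2 := by omega
    rw [e1, e2]
  have g3 : ∀ q ∈ W0, G q = Ev0 q := by
    intro q hq
    obtain ⟨a1, a2, -⟩ := hW0 q hq
    rw [hG]
    simp only
    rw [if_neg (by omega), if_neg (by omega)]
  have memT : ∀ q, q ∈ bb_T N W W' W0 ↔ q ∈ W ∨ (∃ q' ∈ W', (N - q'.2, N - q'.1) = q) ∨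
      q ∈ W0 := by
    intro q
    unfold bb_T
    rw [Finset.mem_union, Finset.mem_union, Finset.mem_image, or_assoc]
  have key := bb_par hPAR hAdm (bb_T N W W' W0) m G (fun _ => e) η
    (by
      intro q hq
      rcases (memT q).1 hq with h | ⟨q', h, rfl⟩ | h
      · have := hW q h
        omega
      · have := hW' q' h
        simp only
        omega
      · have := hW0 q h
        omega)
    (by
      intro q hq q' hq' hne
      rcases (memT q).1 hq with h | ⟨s, h, rfl⟩ | h <;>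
      rcases (memT q').1 hq' with h' | ⟨s', h', rfl⟩ | h'
      · exact hWd q h q' h' hne
      · have a1 := hW q h
        have a2 := hW' s' h'
        simp only
        omega
      · left
        exact (hW0 q' h').2.2.2.1 q h
      · have a1 := hW q' h'
        have a2 := hW' s h
        simp only
        omega
      · have a1 := hW' s h
        have a2 := hW' s' h'
        have a3 : s ≠ s' := by
          rintro rfl
          exact hne rfl
        have a4 := hWd' s h s' h' a3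
        simp only
        omega
      · have a1 := (hW0 q' h').2.2.2.2 s h
        have a2 := (hW0 q' h').2.2.1
        have a3 := hW' s h
        simp only
        omega
      · right
        exact (hW0 q h).2.2.2.1 q' h'
      · have a1 := (hW0 q h).2.2.2.2 s' h'
        have a2 := (hW0 q h).2.2.1
        have a3 := hW' s' h'
        simp only
        omega
      · exact absurd (hW01 q h q' h') hne)
    (by
      intro q hq η ξ hag
      rcases (memT q).1 hq with h | ⟨s, h, rfl⟩ | h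
      · rw [g1 q h]
        exact lE q h η ξ hag
      · rw [g2 s h, Set.mem_ofPred_eq, Set.mem_ofPred_eq]
        obtain ⟨a1, a2⟩ := hW' s h
        apply lE' s h
        intro x hx1 hx2
        rw [bb_occ hMIR η (by omega), bb_occ hMIR ξ (by omega), hag (N - 1 - x)]
        · simp only
          omega
        · simp only
          omega
      · rw [g3 q h]
        exact lE0 q h η ξ hag)
    (by
      intro q hq
      rcases (memT q).1 hq with h | ⟨s, h, rfl⟩ | h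
      · rw [g1 q h]
        exact p1 q h
      · rw [g2 s h]
        obtain ⟨a1, a2⟩ := hW' s h
        have e1 : ({ξ : Cfg N | mir ξ ∈ Ev' s})ᶜ = {ξ : Cfg N | mir ξ ∈ (Ev' s)ᶜ} := by
          ext ξ
          simp only [Set.mem_compl_iff, Set.mem_ofPred_eq]
        rw [e1]
        have := bb_mirpr hMIR (r := r) (l := l) (a := s.1) (b := s.2) (by omega) m (Ev' s)ᶜ η
        rw [this]
        exact p2 s h
      · rw [g3 q h]
        exact p3 q h)
  refine (pr_mono hAdm _ m ?_ η).trans (key.trans ?_)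
  · intro ξ hξ hcon
    apply hξ
    obtain ⟨c1, c2⟩ := hcon
    refine ⟨?_, ?_, ?_, ?_, ?_⟩
    · intro q hq
      have := c1 q ((memT q).2 (Or.inl hq))
      rw [g1 q hq] at this
      exact this
    · intro q hq
      have := c1 _ ((memT _).2 (Or.inr (Or.inl ⟨q, hq, rfl⟩)))
      rw [g2 q hq] at this
      obtain ⟨b1, b2⟩ := this
      obtain ⟨a1, a2⟩ := hW' q hq
      refine ⟨b1, ?_⟩
      have d1 := bb_cnt hMIR (a := q.1) (b := q.2) (by omega) (by omega) ξ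
      have d2 := bb_cnt hMIR (a := q.1) (b := q.2) (by omega) (by omega) η
      simp only at b2
      omega
    · intro q hq
      have := c1 q ((memT q).2 (Or.inr (Or.inr hq)))
      rw [g3 q hq] at this
      exact this
    · intro x hx hq hq0
      apply c2
      intro q hqT
      rcases (memT q).1 hqT with h | ⟨s, h, rfl⟩ | h
      · exact hq q h
      · have a := hW' s h
        left
        simp only
        omega
      · left
        exact hq0 q h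
    · intro x hx hq hq0
      rw [bb_occ hMIR ξ (by omega), bb_occ hMIR η (by omega)]
      congr 1
      apply c2
      intro q hqT
      rcases (memT q).1 hqT with h | ⟨s, h, rfl⟩ | h
      · have := hW q h
        right
        omega
      · have a := hW' s h
        have b := hq s h
        simp only
        omega
      · have a := hq0 q h
        right
        omega
  · rw [Finset.sum_const, nsmul_eq_mul]
    apply mul_le_mul_of_nonneg_right _ he
    have h1 : (bb_T N W W' W0).card ≤ W.card + W'.card + W0.card := by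
      unfold bb_T
      refine (Finset.card_union_le _ _).trans ?_
      have h2 := Finset.card_union_le W (W'.image (fun q => (N - q.2, N - q.1)))
      have h3 := Finset.card_image_le (s := W') (f := fun q : ℕ × ℕ => (N - q.2, N - q.1))
      omega
    exact_mod_cast h1

lemma bb_S_sub {N A B x0 : ℕ} {W W' W0 : Finset (ℕ × ℕ)} (hA : A ≤ x0) (hB : B ≤ N)
    (hW : ∀ q ∈ W, A ≤ q.1 ∧ q.2 ≤ B) (hW' : ∀ q ∈ W', N - B ≤ q.1 ∧ q.2 ≤ N - x0)
    (hW0 : ∀ q ∈ W0, A ≤ q.1 ∧ q.2 ≤ B) (hx0 : x0 ≤ N) :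
    bb_S N W W' W0 ⊆ Finset.Ioo A B := by
  intro x hx
  unfold bb_S bb_T at hx
  rw [Finset.mem_biUnion] at hx
  obtain ⟨q, hq, hx⟩ := hx
  rw [Finset.mem_Ioo] at hx ⊢
  rw [Finset.mem_union, Finset.mem_union, Finset.mem_image] at hq
  rcases hq with (hq | ⟨s, hq, rfl⟩) | hq
  · have := hW q hq
    omega
  · have a1 := hW' s hq
    simp only at hx
    omega
  · have := hW0 q hq
    omega

/-! ### positions -/

lemma bb_eA {L : BD} (hV : L.Valid) : ∀ u, u ≤ L.V → L.A ≤ L.e u := by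
  intro u
  induction u with
  | zero =>
    intro _
    rw [hV.e0]
  | succ u ih =>
    intro hu
    have h1 := ih (by omega)
    have h2 := hV.cell1 (u + 1) (by omega) hu
    have h3 := hV.cell2 (u + 1) (by omega) hu
    have h4 : u + 1 - 1 = u := by omega
    rw [h4] at h2
    omega

lemma bb_gapG {L : BD} (hV : L.Valid) {v : ℕ} (h1 : 1 ≤ v) (h2 : v ≤ L.V + 1) :
    L.e (v - 1) + 4 * L.w ≤ L.G v := by
  unfold BD.G
  split_ifs with h
  · exact hV.cell1 v h1 h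
  · have : v - 1 = L.V := by omega
    rw [this]
    exact hV.last

lemma bb_mis {L : BD} (hV : L.Valid) {v p : ℕ} (hL : L.Leg v p) (hp : L.e (v - 1) < p) :
    L.mis v (p - 1) + 1 = L.mis v p := by
  obtain ⟨h1, h2, h3, h4⟩ := hL
  have h5 := bb_eA hV (v - 1) (by omega)
  unfold BD.mis
  omega

lemma bb_rem {L : BD} {v p : ℕ} (hp : L.e (v - 1) < p) : L.rem v (p - 1) + 1 = L.rem v p := by
  unfold BD.rem
  omega

lemma bb_chg (hBBA : ST_BBA) {N : ℕ} {L : BD} (hV : L.Valid) (hN : L.x0 ≤ N) {v : ℕ}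
    (h1 : 2 ≤ v) (h2 : v ≤ L.V + 1) :
    (L.Pat v (L.e (v - 1)) : Set (Cfg N)) = (L.Pat (v - 1) (L.g (v - 1)) : Set (Cfg N)) := by
  have h3 := bb_gapG hV (v := v) (by omega) h2
  have hw := hV.w1
  have h4 : L.Leg v (L.e (v - 1) + 1) := ⟨by omega, h2, by omega, by omega⟩
  obtain ⟨-, -, -, -, -, -, -, -, -, -, -, -, -, -, h5, -⟩ :=
    hBBA N L v (L.e (v - 1) + 1) hV h4 (by omega) hN
  have h6 : L.e (v - 1) + 1 - 1 = L.e (v - 1) := by omega
  rw [h6] at h5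
  exact h5 rfl h1

lemma bb_norm (hBBA : ST_BBA) {N : ℕ} {L : BD} (hV : L.Valid) (hN : L.x0 ≤ N) {v p : ℕ}
    (hL : L.Leg v p) (hr : 1 ≤ L.rem v p) :
    ∃ v2 p2, L.Leg v2 p2 ∧ L.e (v2 - 1) < p2 ∧
      (L.Pat v2 p2 : Set (Cfg N)) = (L.Pat v p : Set (Cfg N)) ∧ L.rem v2 p2 = L.rem v p ∧
      L.mis v2 p2 = L.mis v p := by
  obtain ⟨h1, h2, h3, h4⟩ := hL
  rcases Nat.lt_or_ge (L.e (v - 1)) p with h | h
  · exact ⟨v, p, ⟨h1, h2, h3, h4⟩, h, rfl, rfl, rfl⟩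
  · have hp : p = L.e (v - 1) := by omega
    subst hp
    have hv2 : 2 ≤ v := by
      by_contra hcon
      have hv : v = 1 := by omega
      subst hv
      unfold BD.rem at hr
      simp at hr
    have hw := hV.w1
    have c1 := hV.cell1 (v - 1) (by omega) (by omega)
    have c2 := hV.cell2 (v - 1) (by omega) (by omega)
    have c3 := bb_eA hV (v - 1 - 1) (by omega)
    have hG : L.G (v - 1) = L.g (v - 1) := by
      unfold BD.G
      rw [if_pos (by omega)]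
    refine ⟨v - 1, L.g (v - 1), ⟨by omega, by omega, by omega, by rw [hG]⟩, by omega,
      (bb_chg hBBA hV hN hv2 h2).symm, ?_, ?_⟩
    · unfold BD.rem
      have e1 : Finset.Ico 1 v = insert (v - 1) (Finset.Ico 1 (v - 1)) := by
        ext x
        simp only [Finset.mem_insert, Finset.mem_Ico]
        omega
      rw [e1, Finset.sum_insert (by simp)]
      omega
    · unfold BD.mis
      have e1 : Finset.Icc (v - 1) L.V = insert (v - 1) (Finset.Icc v L.V) := by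
        ext x
        simp only [Finset.mem_insert, Finset.mem_Icc]
        omega
      rw [e1, Finset.sum_insert (by simp; omega)]
      have c4 := bb_eA hV (v - 1) (by omega)
      omega

lemma bb_fin0 (hBBA : ST_BBA) {N : ℕ} {L : BD} (hV : L.Valid) (hN : L.x0 ≤ N)
    {v p v1 p1 : ℕ} (hL : L.Leg v p) (hL1 : L.Leg v1 p1) (hv : v1 ≤ v)
    (hr : L.rem v p = L.rem v1 p1) :
    (L.Pat v p : Set (Cfg N)) = (L.Pat v1 p1 : Set (Cfg N)) := by
  obtain ⟨h1, h2, h3, h4⟩ := hL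
  obtain ⟨k1, k2, k3, k4⟩ := hL1
  rcases Nat.eq_or_lt_of_le hv with h | h
  · subst h
    have : p = p1 := by
      unfold BD.rem at hr
      omega
    rw [this]
  · have hw := hV.w1
    have hG : L.G v1 = L.g v1 := by
      unfold BD.G
      rw [if_pos (by omega)]
    rw [hG] at k4
    have c1 := hV.cell1 v1 k1 (by omega)
    unfold BD.rem at hr
    have e1 : Finset.Ico 1 v = Finset.Ico 1 v1 ∪ insert v1 (Finset.Ico (v1 + 1) v) := by
      ext x
      simp only [Finset.mem_union, Finset.mem_insert, Finset.mem_Ico]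
      omega
    have d1 : Disjoint (Finset.Ico 1 v1) (insert v1 (Finset.Ico (v1 + 1) v)) := by
      rw [Finset.disjoint_left]
      intro x hx hx'
      simp only [Finset.mem_insert, Finset.mem_Ico] at hx hx'
      omega
    rw [e1, Finset.sum_union d1, Finset.sum_insert (by simp)] at hr
    have h5 : (v - (v1 + 1)) * 4 ≤ ∑ u ∈ Finset.Ico (v1 + 1) v, (L.g u - L.e (u - 1)) := by
      have h6 := Finset.card_nsmul_le_sum (Finset.Ico (v1 + 1) v)
        (fun u => L.g u - L.e (u - 1)) 4 (by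
          intro u hu
          rw [Finset.mem_Ico] at hu
          have := hV.cell1 u (by omega) (by omega)
          omega)
      rw [Nat.card_Ico, smul_eq_mul] at h6
      exact h6
    have h7 : v = v1 + 1 := by omega
    have h8 : p = L.e (v - 1) := by omega
    have h9 : p1 = L.g v1 := by omega
    rw [h8, h9, bb_chg hBBA hV hN (by omega) h2]
    have h10 : v - 1 = v1 := by omega
    rw [h10]

lemma bb_fin (hBBA : ST_BBA) {N : ℕ} {L : BD} (hV : L.Valid) (hN : L.x0 ≤ N)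
    {v p v1 p1 : ℕ} (hL : L.Leg v p) (hL1 : L.Leg v1 p1) (hr : L.rem v p = L.rem v1 p1) :
    (L.Pat v p : Set (Cfg N)) = (L.Pat v1 p1 : Set (Cfg N)) := by
  rcases le_total v1 v with h | h
  · exact bb_fin0 hBBA hV hN hL hL1 h hr
  · exact (bb_fin0 hBBA hV hN hL1 hL h hr.symm).symm

/-! ### numbers of windows -/

lemma bb_cardA {L : BD} {v p : ℕ} (hv : 1 ≤ v) : (L.WA v p).card ≤ L.V + 1 := by
  unfold BD.WA
  refine (Finset.card_union_le _ _).trans ?_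
  have h1 : (if p - 1 + 4 * L.w < L.G v then ({(p - 1, L.G v - 2 * L.w)} : Finset (ℕ × ℕ))
      else ∅).card ≤ 1 := by
    split_ifs <;> simp
  have h2 := Finset.card_image_le (s := Finset.Icc v L.V)
    (f := fun u => (L.e u - 1, L.G (u + 1) - 2 * L.w))
  rw [Nat.card_Icc] at h2
  omega

lemma bb_cardB {L : BD} {v : ℕ} (hv : 1 ≤ v) : (L.WB v).card ≤ L.V := by
  unfold BD.WB
  have h2 := Finset.card_image_le (s := Finset.Icc v L.V)
    (f := fun u => (L.g u + 2 * L.w, L.e u))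
  rw [Nat.card_Icc] at h2
  omega

lemma bb_cardC {L : BD} {v p : ℕ} (hv : 1 ≤ v) : (L.WC v p).card ≤ L.V := by
  unfold BD.WC
  refine (Finset.card_union_le _ _).trans ?_
  have h2 := Finset.card_image_le (s := Finset.Ioc v L.V)
    (f := fun u => (L.g u - 4 * L.w, L.g u + 4 * L.w))
  rw [Nat.card_Ioc] at h2
  split_ifs with h
  · rw [Finset.card_singleton]
    omega
  · rw [Finset.card_empty]
    omega

/-! ### the three phases -/

/-- the data of one macro step -/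
structure bb_D (N : ℕ) (r l : ℕ → ℝ) (A B x0 w τ : ℕ) (e1 e2 : ℝ) (L L' : BD) : Prop where
  adm : Adm N r l
  hA : A ≤ x0
  hB : x0 ≤ B
  hN : B ≤ N
  he1 : 0 ≤ e1
  he2 : 0 ≤ e2
  val : L.Valid
  val' : L'.Valid
  lA : L.A = A
  lx : L.x0 = x0
  lw : L.w = w
  lA' : L'.A = N - B
  lx' : L'.x0 = N - x0
  lw' : L'.w = w
  hyp : L.Hyp N r l τ e1 e2
  hyp' : L'.Hyp N (mirr N r) (mirr N l) τ e1 e2
  cen : ∀ (a b : ℕ) (S : Finset ℕ) (η : Cfg N), x0 ≤ a + 4 * w → a < x0 → x0 < b →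
    b ≤ x0 + 4 * w → A ≤ a → b ≤ B → a ∉ S → b ∉ S → (∀ x, a < x → x < b → x ∈ S) →
    cnt η a b = b - x0 → pr r l (fun _ => S) τ (sorted a (x0 - w) (x0 + w) b)ᶜ η ≤ e2

/-- event of phase A -/
def bb_EA {N : ℕ} (w : ℕ) (q : ℕ × ℕ) : Set (Cfg N) :=
  {ξ | ∀ x, q.1 ≤ x → x + 2 * w < q.2 → occ ξ x = false}

/-- event of phase B -/
def bb_EB {N : ℕ} (w : ℕ) (q : ℕ × ℕ) : Set (Cfg N) :=
  {ξ | ∀ x, q.1 + 2 * w ≤ x → x < q.2 → occ ξ x = true}

/-- event of phase C -/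
def bb_EC {N : ℕ} (w : ℕ) (q : ℕ × ℕ) : Set (Cfg N) :=
  sorted q.1 (q.2 - 5 * w) (q.2 - 3 * w) q.2

lemma bb_locA {N : ℕ} (w : ℕ) (W : Finset (ℕ × ℕ)) : bb_loc W (bb_EA (N := N) w) := by
  intro q _ η ξ h
  unfold bb_EA
  rw [Set.mem_ofPred_eq, Set.mem_ofPred_eq]
  constructor
  · intro h1 x hx1 hx2
    rw [← h x hx1 (by omega)]
    exact h1 x hx1 hx2
  · intro h1 x hx1 hx2
    rw [h x hx1 (by omega)]
    exact h1 x hx1 hx2

lemma bb_locB {N : ℕ} (w : ℕ) (W : Finset (ℕ × ℕ)) : bb_loc W (bb_EB (N := N) w) := by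
  intro q _ η ξ h
  unfold bb_EB
  rw [Set.mem_ofPred_eq, Set.mem_ofPred_eq]
  constructor
  · intro h1 x hx1 hx2
    rw [← h x (by omega) hx2]
    exact h1 x hx1 hx2
  · intro h1 x hx1 hx2
    rw [h x (by omega) hx2]
    exact h1 x hx1 hx2

lemma bb_sorted_loc {N A q1 q2 B : ℕ} (h1 : A ≤ q2) (h2 : q1 ≤ B) (η ξ : Cfg N)
    (h : ∀ x, A ≤ x → x < B → occ η x = occ ξ x) :
    η ∈ (sorted A q1 q2 B : Set (Cfg N)) → ξ ∈ (sorted A q1 q2 B : Set (Cfg N)) := by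
  rintro ⟨k1, k2⟩
  refine ⟨fun i hi hi' => ?_, fun i hi hi' => ?_⟩
  · rw [← h i hi (by omega)]
    exact k1 i hi hi'
  · rw [← h i (by omega) hi']
    exact k2 i hi hi'

lemma bb_phA (hPAR : ST_PAR) (hMIR : ST_MIR) (hBBA : ST_BBA) {N : ℕ} {r l : ℕ → ℝ}
    {A B x0 w τ : ℕ} {e1 e2 : ℝ} {L L' : BD} (hD : bb_D N r l A B x0 w τ e1 e2 L L')
    {v p v' p' : ℕ} (hL : L.Leg v p) (hp : L.e (v - 1) < p) (hL' : L'.Leg v' p')
    (hp' : L'.e (v' - 1) < p') (η : Cfg N) (h : η ∈ (L.Pat v p : Set (Cfg N)))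
    (h' : mir η ∈ (L'.Pat v' p' : Set (Cfg N))) :
    pr r l (fun _ => bb_S N (L.WA v p) (L'.WA v' p') ∅) τ
      {ξ | ξ ∈ (L.PatA v p : Set (Cfg N)) ∧ mir ξ ∈ (L'.PatA v' p' : Set (Cfg N))}ᶜ η ≤
      ((L.V : ℝ) + L'.V + 2) * e1 := by
  obtain ⟨adm, hA, hB, hN, he1, he2, val, val', lA, lx, lw, lA', lx', lw', hyp, hyp', cen⟩ := hD
  have hx0N : x0 ≤ N := hB.trans hN
  obtain ⟨dA, -, -, uA, -, -, -, a1, a2, -⟩ := hBBA N L v p val hL hp (by omega)
  obtain ⟨dA', -, -, uA', -, -, -, a1', a2', -⟩ := hBBA N L' v' p' val' hL' hp' (by omega)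
  have key := bb_phase hPAR hMIR adm (m := τ) hx0N (L.WA v p) (L'.WA v' p') ∅
    (bb_EA w) (bb_EA w) (bb_EA w) e1 he1 η
    (fun q hq => by
      have := dA.1 q hq
      omega)
    dA.2
    (fun q hq => by
      have := dA'.1 q hq
      omega)
    dA'.2 (by simp) (by simp) (bb_locA w _) (bb_locA w _) (bb_locA w _)
    (fun q hq => by
      obtain ⟨u, u1, u2, u3, u4, u5, u6⟩ := uA q hq
      obtain ⟨c1, c2⟩ := a1 η h q hq
      have h1 := hyp.part u q.1 (Finset.Ioo q.1 q.2) η u1 u2 u3 u4 u5 (by simp)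
        (by rw [← u6]; simp) (fun x hx1 hx2 => by rw [Finset.mem_Ioo, u6]; exact ⟨hx1, hx2⟩)
        (by rw [← u6]; exact c1) c2
      refine (pr_mono adm _ τ ?_ η).trans h1
      intro ξ hξ
      unfold bb_EA at hξ
      rw [Set.mem_compl_iff, Set.mem_ofPred_eq] at hξ
      push Not at hξ
      obtain ⟨x, hx1, hx2, hx3⟩ := hξ
      refine ⟨x, hx1, by omega, by simpa using hx3⟩)
    (fun q hq => by
      obtain ⟨u, u1, u2, u3, u4, u5, u6⟩ := uA' q hq
      obtain ⟨c1, c2⟩ := a1' (mir η) h' q hq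
      have h1 := hyp'.part u q.1 (Finset.Ioo q.1 q.2) (mir η) u1 u2 u3 u4 u5 (by simp)
        (by rw [← u6]; simp) (fun x hx1 hx2 => by rw [Finset.mem_Ioo, u6]; exact ⟨hx1, hx2⟩)
        (by rw [← u6]; exact c1) c2
      refine (pr_mono (bb_adm adm) _ τ ?_ (mir η)).trans h1
      intro ξ hξ
      unfold bb_EA at hξ
      rw [Set.mem_compl_iff, Set.mem_ofPred_eq] at hξ
      push Not at hξ
      obtain ⟨x, hx1, hx2, hx3⟩ := hξ
      refine ⟨x, hx1, by omega, by simpa using hx3⟩)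
    (by simp)
  refine (pr_mono adm _ τ ?_ η).trans (key.trans ?_)
  · intro ξ hξ hcon
    apply hξ
    obtain ⟨o1, o2, -, o4, o5⟩ := hcon
    refine ⟨a2 η ξ h ⟨fun q hq => (o1 q hq).2, fun x hx1 hx2 hx3 => o4 x (by omega) hx3 (by simp)⟩
      (fun q hq => ?_), a2' (mir η) (mir ξ) h'
        ⟨fun q hq => (o2 q hq).2, fun x hx1 hx2 hx3 => o5 x (by omega) hx3 (by simp)⟩
        (fun q hq => ?_)⟩
    · rw [lw]
      exact (o1 q hq).1
    · rw [lw']
      exact (o2 q hq).1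
  · apply mul_le_mul_of_nonneg_right _ he1
    have c1 := bb_cardA (L := L) (v := v) (p := p) hL.1
    have c2 := bb_cardA (L := L') (v := v') (p := p') hL'.1
    have c3 : (L.WA v p).card + (L'.WA v' p').card + (∅ : Finset (ℕ × ℕ)).card ≤
        L.V + L'.V + 2 := by
      rw [Finset.card_empty]
      omega
    exact_mod_cast c3

lemma bb_phB (hPAR : ST_PAR) (hMIR : ST_MIR) (hBBA : ST_BBA) {N : ℕ} {r l : ℕ → ℝ}
    {A B x0 w τ : ℕ} {e1 e2 : ℝ} {L L' : BD} (hD : bb_D N r l A B x0 w τ e1 e2 L L')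
    {v p v' p' : ℕ} (hL : L.Leg v p) (hp : L.e (v - 1) < p) (hL' : L'.Leg v' p')
    (hp' : L'.e (v' - 1) < p') (η : Cfg N) (h : η ∈ (L.PatA v p : Set (Cfg N)))
    (h' : mir η ∈ (L'.PatA v' p' : Set (Cfg N))) :
    pr r l (fun _ => bb_S N (L.WB v) (L'.WB v') ∅) τ
      {ξ | ξ ∈ (L.PatB v p : Set (Cfg N)) ∧ mir ξ ∈ (L'.PatB v' p' : Set (Cfg N))}ᶜ η ≤
      ((L.V : ℝ) + L'.V) * e1 := by
  obtain ⟨adm, hA, hB, hN, he1, he2, val, val', lA, lx, lw, lA', lx', lw', hyp, hyp', cen⟩ := hD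
  have hx0N : x0 ≤ N := hB.trans hN
  obtain ⟨-, dA, -, -, uA, -, -, -, -, a1, a2, -⟩ := hBBA N L v p val hL hp (by omega)
  obtain ⟨-, dA', -, -, uA', -, -, -, -, a1', a2', -⟩ :=
    hBBA N L' v' p' val' hL' hp' (by omega)
  have key := bb_phase hPAR hMIR adm (m := τ) hx0N (L.WB v) (L'.WB v') ∅
    (bb_EB w) (bb_EB w) (bb_EB w) e1 he1 η
    (fun q hq => by
      have := dA.1 q hq
      omega)
    dA.2
    (fun q hq => by
      have := dA'.1 q hq
      omega)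
    dA'.2 (by simp) (by simp) (bb_locB w _) (bb_locB w _) (bb_locB w _)
    (fun q hq => by
      obtain ⟨u, u1, u2, u3, u4⟩ := uA q hq
      obtain ⟨c1, c2⟩ := a1 η h q hq
      have h1 := hyp.hole u (Finset.Ioo q.1 q.2) η u1 u2 (by rw [← u3]; simp)
        (by rw [← u4]; simp) (fun x hx1 hx2 => by rw [Finset.mem_Ioo, u3, u4]; exact ⟨hx1, hx2⟩)
        (by rw [← u3, ← u4]; exact c1) (by rw [← u4]; exact c2)
      refine (pr_mono adm _ τ ?_ η).trans h1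
      intro ξ hξ
      unfold bb_EB at hξ
      rw [Set.mem_compl_iff, Set.mem_ofPred_eq] at hξ
      push Not at hξ
      obtain ⟨x, hx1, hx2, hx3⟩ := hξ
      refine ⟨x, by omega, by omega, by simpa using hx3⟩)
    (fun q hq => by
      obtain ⟨u, u1, u2, u3, u4⟩ := uA' q hq
      obtain ⟨c1, c2⟩ := a1' (mir η) h' q hq
      have h1 := hyp'.hole u (Finset.Ioo q.1 q.2) (mir η) u1 u2 (by rw [← u3]; simp)
        (by rw [← u4]; simp) (fun x hx1 hx2 => by rw [Finset.mem_Ioo, u3, u4]; exact ⟨hx1, hx2⟩)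
        (by rw [← u3, ← u4]; exact c1) (by rw [← u4]; exact c2)
      refine (pr_mono (bb_adm adm) _ τ ?_ (mir η)).trans h1
      intro ξ hξ
      unfold bb_EB at hξ
      rw [Set.mem_compl_iff, Set.mem_ofPred_eq] at hξ
      push Not at hξ
      obtain ⟨x, hx1, hx2, hx3⟩ := hξ
      refine ⟨x, by omega, by omega, by simpa using hx3⟩)
    (by simp)
  refine (pr_mono adm _ τ ?_ η).trans (key.trans ?_)
  · intro ξ hξ hcon
    apply hξ
    obtain ⟨o1, o2, -, o4, o5⟩ := hcon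
    refine ⟨a2 η ξ h ⟨fun q hq => (o1 q hq).2, fun x hx1 hx2 hx3 => o4 x (by omega) hx3 (by simp)⟩
      (fun q hq => ?_), a2' (mir η) (mir ξ) h'
        ⟨fun q hq => (o2 q hq).2, fun x hx1 hx2 hx3 => o5 x (by omega) hx3 (by simp)⟩
        (fun q hq => ?_)⟩
    · rw [lw]
      exact (o1 q hq).1
    · rw [lw']
      exact (o2 q hq).1
  · apply mul_le_mul_of_nonneg_right _ he1
    have c1 := bb_cardB (L := L) (v := v) hL.1
    have c2 := bb_cardB (L := L') (v := v') hL'.1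
    have c3 : (L.WB v).card + (L'.WB v').card + (∅ : Finset (ℕ × ℕ)).card ≤
        L.V + L'.V := by
      rw [Finset.card_empty]
      omega
    exact_mod_cast c3

lemma bb_locC {N : ℕ} {w : ℕ} {W : Finset (ℕ × ℕ)} (hW : ∀ q ∈ W, q.1 ≤ q.2 - 3 * w) :
    bb_loc W (bb_EC (N := N) w) := by
  intro q hq η ξ h
  unfold bb_EC
  exact ⟨bb_sorted_loc (hW q hq) (by omega) η ξ h,
    bb_sorted_loc (hW q hq) (by omega) ξ η (fun x h1 h2 => (h x h1 h2).symm)⟩

/-- one half of the hypotheses of phase C -/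
lemma bb_absb {N : ℕ} {r l : ℕ → ℝ} {τ w : ℕ} {e1 e2 : ℝ} {L : BD} (hAdm : Adm N r l)
    (hyp : L.Hyp N r l τ e1 e2) (lw : L.w = w) (η : Cfg N) (q : ℕ × ℕ) (hA : L.A ≤ q.1)
    (hu : ∃ u, 1 ≤ u ∧ u ≤ L.V ∧ L.g u ≤ q.1 + 4 * L.w ∧ q.1 < L.g u ∧ q.2 = L.g u + 4 * L.w)
    (hc : cnt η q.1 q.2 = 4 * L.w) :
    pr r l (fun _ => Finset.Ioo q.1 q.2) τ (bb_EC (N := N) w q)ᶜ η ≤ e2 := by
  obtain ⟨u, u1, u2, u3, u4, u5⟩ := hu
  have h1 := hyp.absb u q.1 (Finset.Ioo q.1 q.2) η u1 u2 u3 u4 hA (by simp) (by rw [← u5]; simp)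
    (fun x hx1 hx2 => by rw [Finset.mem_Ioo, u5]; exact ⟨hx1, hx2⟩) (by rw [← u5]; exact hc)
  have e1 : q.2 - 5 * w = L.g u - L.w := by omega
  have e2 : q.2 - 3 * w = L.g u + L.w := by omega
  unfold bb_EC
  rw [e1, e2]
  rw [← u5] at h1
  exact h1

lemma bb_phC (hPAR : ST_PAR) (hMIR : ST_MIR) (hBBA : ST_BBA) {N : ℕ} {r l : ℕ → ℝ}
    {A B x0 w τ : ℕ} {e1 e2 : ℝ} {L L' : BD} (hD : bb_D N r l A B x0 w τ e1 e2 L L')
    {v p v' p' : ℕ} (hL : L.Leg v p) (hp : L.e (v - 1) < p) (hL' : L'.Leg v' p')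
    (hp' : L'.e (v' - 1) < p') (η : Cfg N) (h : η ∈ (L.PatB v p : Set (Cfg N)))
    (h' : mir η ∈ (L'.PatB v' p' : Set (Cfg N)))
    (hcnt : cnt η A B + L'.mis v' p' = (B - x0) + L.mis v p) :
    pr r l (fun _ => bb_S N (L.WC v p) (L'.WC v' p') {(L.cl v p, N - L'.cl v' p')}) τ
      {ξ | ξ ∈ (L.Pat v (p - 1) : Set (Cfg N)) ∧
        mir ξ ∈ (L'.Pat v' (p' - 1) : Set (Cfg N))}ᶜ η ≤
      ((L.V : ℝ) + L'.V + 1) * e2 := by
  obtain ⟨adm, hA, hB, hN, he1, he2, val, val', lA, lx, lw, lA', lx', lw', hyp, hyp', cen⟩ := hD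
  have hx0N : x0 ≤ N := hB.trans hN
  obtain ⟨-, -, dC, -, -, uC, kC, -, -, -, -, c1, c2, c3, -⟩ :=
    hBBA N L v p val hL hp (by omega)
  obtain ⟨-, -, dC', -, -, uC', kC', -, -, -, -, c1', c2', c3', -⟩ :=
    hBBA N L' v' p' val' hL' hp' (by omega)
  obtain ⟨cl, hcl⟩ : ∃ cl, cl = L.cl v p := ⟨_, rfl⟩
  obtain ⟨cl', hcl'⟩ : ∃ cl', cl' = L'.cl v' p' := ⟨_, rfl⟩
  rw [← hcl] at kC c2 c3 ⊢
  rw [← hcl'] at kC' c2' c3' ⊢
  obtain ⟨k1, k2, k3⟩ := kC
  obtain ⟨k1', k2', k3'⟩ := kC'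
  have hcC := c2 η h
  have hcC' := c2' (mir η) h'
  have hm1 := bb_cnt hMIR (a := L'.A) (b := cl') k3' (by omega) η
  have hcc : cnt η cl (N - cl') = N - cl' - x0 := by
    have s1 : cnt η A B = cnt η A cl + cnt η cl (N - cl') + cnt η (N - cl') B := by
      unfold cnt
      rw [Finset.sum_Ico_consecutive _ (by omega) (by omega),
        Finset.sum_Ico_consecutive _ (by omega) (by omega)]
    rw [lA'] at hm1 hcC'
    have s2 : N - (N - B) = B := by omega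
    rw [s2] at hm1
    rw [lA] at hcC
    omega
  have key := bb_phase hPAR hMIR adm (m := τ) hx0N (L.WC v p) (L'.WC v' p') {(cl, N - cl')}
    (bb_EC w) (bb_EC w) (fun q => sorted q.1 (x0 - w) (x0 + w) q.2) e2 he2 η
    (fun q hq => by
      have := dC.1 q hq
      omega)
    dC.2
    (fun q hq => by
      have := dC'.1 q hq
      omega)
    dC'.2
    (fun q hq => by
      rw [Finset.mem_singleton] at hq
      subst hq
      refine ⟨by simp only; omega, by simp only; omega, by simp only; omega, ?_, ?_⟩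
      · intro q' hq'
        have := dC.1 q' hq'
        simp only
        omega
      · intro q' hq'
        have := dC'.1 q' hq'
        simp only
        omega)
    (fun q hq q' hq' => by
      rw [Finset.mem_singleton] at hq hq'
      rw [hq, hq'])
    (bb_locC (fun q hq => by
      obtain ⟨u, -, -, -, u4, u5⟩ := uC q hq
      omega))
    (bb_locC (fun q hq => by
      obtain ⟨u, -, -, -, u4, u5⟩ := uC' q hq
      omega))
    (fun q hq η ξ hag => by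
      rw [Finset.mem_singleton] at hq
      subst hq
      simp only at hag ⊢
      exact ⟨bb_sorted_loc (by omega) (by omega) η ξ hag,
        bb_sorted_loc (by omega) (by omega) ξ η (fun x h1 h2 => (hag x h1 h2).symm)⟩)
    (fun q hq => bb_absb adm hyp lw η q (dC.1 q hq).1 (uC q hq) (c1 η h q hq))
    (fun q hq => bb_absb (bb_adm adm) hyp' lw' (mir η) q (dC'.1 q hq).1 (uC' q hq)
      (c1' (mir η) h' q hq))
    (fun q hq => by
      rw [Finset.mem_singleton] at hq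
      subst hq
      simp only
      exact cen cl (N - cl') (Finset.Ioo cl (N - cl')) η (by omega) (by omega) (by omega)
        (by omega) (by omega) (by omega) (by simp) (by simp)
        (fun x hx1 hx2 => by rw [Finset.mem_Ioo]; exact ⟨hx1, hx2⟩) hcc)
  refine (pr_mono adm _ τ ?_ η).trans (key.trans ?_)
  · intro ξ hξ hcon
    apply hξ
    obtain ⟨o1, o2, o3, o4, o5⟩ := hcon
    have o3' := o3 (cl, N - cl') (by simp)
    simp only at o3'
    obtain ⟨⟨o31, o32⟩, o33⟩ := o3'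
    refine ⟨c3 η ξ (N - cl') (by omega) h ⟨?_, ?_⟩ ?_ ?_,
      c3' (mir η) (mir ξ) (N - cl) (by omega) h' ⟨?_, ?_⟩ ?_ ?_⟩
    · intro q hq
      rw [Finset.mem_insert] at hq
      rcases hq with rfl | hq
      · exact o33
      · exact (o1 q hq).2
    · intro x hx1 hx2 hx3
      have hx4 := hx3 (cl, N - cl') (Finset.mem_insert_self _ _)
      simp only at hx4
      refine o4 x (by omega) (fun q hq => hx3 q (Finset.mem_insert_of_mem hq)) ?_
      intro q hq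
      rw [Finset.mem_singleton] at hq
      subst hq
      simp only
      omega
    · intro q hq
      have := (o1 q hq).1
      unfold bb_EC at this
      rw [lw]
      exact this
    · intro x hx1 hx2
      exact o31 x hx1 (by omega)
    · intro q hq
      rw [Finset.mem_insert] at hq
      rcases hq with rfl | hq
      · simp only
        have d1 := bb_cnt hMIR (a := cl') (b := N - cl) (by omega) (by omega) ξ
        have d2 := bb_cnt hMIR (a := cl') (b := N - cl) (by omega) (by omega) η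
        have d3 : N - (N - cl) = cl := by omega
        rw [d3] at d1 d2
        omega
      · exact (o2 q hq).2
    · intro x hx1 hx2 hx3
      have hx4 := hx3 (cl', N - cl) (Finset.mem_insert_self _ _)
      simp only at hx4
      refine o5 x (by omega) (fun q hq => hx3 q (Finset.mem_insert_of_mem hq)) ?_
      intro q hq
      rw [Finset.mem_singleton] at hq
      subst hq
      simp only
      omega
    · intro q hq
      have := (o2 q hq).1
      unfold bb_EC at this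
      rw [lw']
      exact this
    · intro x hx1 hx2
      rw [bb_occ hMIR ξ (by omega), o32 (N - 1 - x) (by omega) (by omega)]
      rfl
  · apply mul_le_mul_of_nonneg_right _ he2
    have d1 := bb_cardC (L := L) (v := v) (p := p) hL.1
    have d2 := bb_cardC (L := L') (v := v') (p := p') hL'.1
    have d3 : (L.WC v p).card + (L'.WC v' p').card +
        ({(cl, N - cl')} : Finset (ℕ × ℕ)).card ≤ L.V + L'.V + 1 := by
      rw [Finset.card_singleton]
      omega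
    exact_mod_cast d3

/-! ### one macro step -/

/-- the balance of particles -/
def bb_bal {N : ℕ} (A B x0 : ℕ) (L L' : BD) (v p v' p' : ℕ) (η : Cfg N) : Prop :=
  cnt η A B + L'.mis v' p' = (B - x0) + L.mis v p

lemma bb_balpr (hLOC : ST_LOC) {N : ℕ} {r l : ℕ → ℝ} (hAdm : Adm N r l) {A B : ℕ} (hAB : A ≤ B)
    (hB : B ≤ N) (σ : ℕ → Finset ℕ) (hσ : ∀ i, σ i ⊆ Finset.Ioo A B) (m : ℕ) (η : Cfg N)
    (E : Set (Cfg N)) (c : ℝ) (h : pr r l σ m Eᶜ η ≤ c) :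
    pr r l σ m {ξ | ξ ∈ E ∧ cnt ξ A B = cnt η A B}ᶜ η ≤ c := by
  have h1 := hLOC.2.1 N r l σ m A B η hAB hB (fun i => ⟨fun hm => by
    have := Finset.mem_Ioo.1 (hσ i hm)
    omega, fun hm => by
    have := Finset.mem_Ioo.1 (hσ i hm)
    omega⟩)
  have h2 := pr_union hAdm σ m Eᶜ {ξ | cnt ξ A B ≠ cnt η A B} η
  refine (pr_mono hAdm σ m ?_ η).trans (h2.trans (by linarith))
  intro ξ hξ
  by_cases h3 : ξ ∈ E
  · right
    intro h4
    exact hξ ⟨h3, h4⟩
  · left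
    exact h3

lemma bb_subs (hBBA : ST_BBA) {N : ℕ} {r l : ℕ → ℝ}
    {A B x0 w τ : ℕ} {e1 e2 : ℝ} {L L' : BD} (hD : bb_D N r l A B x0 w τ e1 e2 L L')
    {v p v' p' : ℕ} (hL : L.Leg v p) (hp : L.e (v - 1) < p) (hL' : L'.Leg v' p')
    (hp' : L'.e (v' - 1) < p') :
    bb_S N (L.WA v p) (L'.WA v' p') ∅ ⊆ Finset.Ioo A B ∧
    bb_S N (L.WB v) (L'.WB v') ∅ ⊆ Finset.Ioo A B ∧
    bb_S N (L.WC v p) (L'.WC v' p') {(L.cl v p, N - L'.cl v' p')} ⊆ Finset.Ioo A B := by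
  obtain ⟨adm, hA, hB, hN, he1, he2, val, val', lA, lx, lw, lA', lx', lw', hyp, hyp', cen⟩ := hD
  obtain ⟨dA, dB, dC, -, -, -, kC, -⟩ := hBBA N L v p val hL hp (by omega)
  obtain ⟨dA', dB', dC', -, -, -, kC', -⟩ := hBBA N L' v' p' val' hL' hp' (by omega)
  refine ⟨bb_S_sub hA hN (fun q hq => ?_) (fun q hq => ?_) (by simp) (by omega),
    bb_S_sub hA hN (fun q hq => ?_) (fun q hq => ?_) (by simp) (by omega),
    bb_S_sub hA hN (fun q hq => ?_) (fun q hq => ?_) (fun q hq => ?_) (by omega)⟩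
  · have := dA.1 q hq
    omega
  · have := dA'.1 q hq
    omega
  · have := dB.1 q hq
    omega
  · have := dB'.1 q hq
    omega
  · have := dC.1 q hq
    omega
  · have := dC'.1 q hq
    omega
  · rw [Finset.mem_singleton] at hq
    subst hq
    simp only
    omega

lemma bb_step (hPAR : ST_PAR) (hMIR : ST_MIR) (hLOC : ST_LOC) (hBBA : ST_BBA) {N : ℕ}
    {r l : ℕ → ℝ} {A B x0 w τ : ℕ} {e1 e2 : ℝ} {L L' : BD}
    (hD : bb_D N r l A B x0 w τ e1 e2 L L')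
    {v p v' p' : ℕ} (hL : L.Leg v p) (hp : L.e (v - 1) < p) (hL' : L'.Leg v' p')
    (hp' : L'.e (v' - 1) < p') :
    ∃ σ : ℕ → Finset ℕ, (∀ i, σ i ⊆ Finset.Ioo A B) ∧
      ∀ η : Cfg N, η ∈ (L.Pat v p : Set (Cfg N)) → mir η ∈ (L'.Pat v' p' : Set (Cfg N)) →
        bb_bal A B x0 L L' v p v' p' η →
        pr r l σ (3 * τ) {ξ | ξ ∈ (L.Pat v (p - 1) : Set (Cfg N)) ∧
          mir ξ ∈ (L'.Pat v' (p' - 1) : Set (Cfg N)) ∧
          bb_bal A B x0 L L' v (p - 1) v' (p' - 1) ξ}ᶜ η ≤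
          (2 * L.V + 2 * L'.V + 2) * e1 + (L.V + L'.V + 1) * e2 := by
  obtain ⟨sA, sB, sC⟩ := bb_subs hBBA hD hL hp hL' hp'
  have adm := hD.adm
  have hAB : A ≤ B := hD.hA.trans hD.hB
  have hBN := hD.hN
  have he1 := hD.he1
  have he2 := hD.he2
  refine ⟨cat τ (fun _ => bb_S N (L.WA v p) (L'.WA v' p') ∅) (cat τ
    (fun _ => bb_S N (L.WB v) (L'.WB v') ∅)
    (fun _ => bb_S N (L.WC v p) (L'.WC v' p') {(L.cl v p, N - L'.cl v' p')})), ?_, ?_⟩
  · intro i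
    unfold cat
    split_ifs
    · exact sA
    · exact sB
    · exact sC
  · intro η h h' hbal
    obtain ⟨EA, hEA⟩ : ∃ EA : Set (Cfg N), EA = {ξ | ξ ∈ {ξ | ξ ∈ (L.PatA v p : Set (Cfg N)) ∧
        mir ξ ∈ (L'.PatA v' p' : Set (Cfg N))} ∧ cnt ξ A B = cnt η A B} := ⟨_, rfl⟩
    obtain ⟨EB, hEB⟩ : ∃ EB : Set (Cfg N), EB = {ξ | ξ ∈ {ξ | ξ ∈ (L.PatB v p : Set (Cfg N)) ∧
        mir ξ ∈ (L'.PatB v' p' : Set (Cfg N))} ∧ cnt ξ A B = cnt η A B} := ⟨_, rfl⟩
    obtain ⟨EC, hEC⟩ : ∃ EC : Set (Cfg N), EC = {ξ | ξ ∈ {ξ |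
        ξ ∈ (L.Pat v (p - 1) : Set (Cfg N)) ∧ mir ξ ∈ (L'.Pat v' (p' - 1) : Set (Cfg N))} ∧
        cnt ξ A B = cnt η A B} := ⟨_, rfl⟩
    have st1 : pr r l (fun _ => bb_S N (L.WA v p) (L'.WA v' p') ∅) τ EAᶜ η ≤
        ((L.V : ℝ) + L'.V + 2) * e1 := by
      rw [hEA]
      exact bb_balpr hLOC adm hAB hBN _ (fun _ => sA) τ η _ _
        (bb_phA hPAR hMIR hBBA hD hL hp hL' hp' η h h')
    have st2 : ∀ ξ : Cfg N, ξ ∈ EA →
        pr r l (fun _ => bb_S N (L.WB v) (L'.WB v') ∅) τ EBᶜ ξ ≤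
        ((L.V : ℝ) + L'.V) * e1 := by
      intro ξ hξ
      rw [hEA] at hξ
      obtain ⟨⟨q1, q2⟩, q3⟩ := hξ
      rw [hEB, ← q3]
      exact bb_balpr hLOC adm hAB hBN _ (fun _ => sB) τ ξ _ _
        (bb_phB hPAR hMIR hBBA hD hL hp hL' hp' ξ q1 q2)
    have st3 : ∀ ξ : Cfg N, ξ ∈ EB →
        pr r l (fun _ => bb_S N (L.WC v p) (L'.WC v' p') {(L.cl v p, N - L'.cl v' p')}) τ
        ECᶜ ξ ≤ ((L.V : ℝ) + L'.V + 1) * e2 := by
      intro ξ hξ
      rw [hEB] at hξ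
      obtain ⟨⟨q1, q2⟩, q3⟩ := hξ
      rw [hEC, ← q3]
      exact bb_balpr hLOC adm hAB hBN _ (fun _ => sC) τ ξ _ _
        (bb_phC hPAR hMIR hBBA hD hL hp hL' hp' ξ q1 q2 (by
          unfold bb_bal at hbal
          rw [q3]
          exact hbal))
    have st4 : ∀ ξ : Cfg N, ht ξ 0 = ht η 0 → ξ ∈ EA → pr r l (cat τ
        (fun _ => bb_S N (L.WB v) (L'.WB v') ∅)
        (fun _ => bb_S N (L.WC v p) (L'.WC v' p') {(L.cl v p, N - L'.cl v' p')})) (τ + τ)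
        ECᶜ ξ ≤ ((L.V : ℝ) + L'.V) * e1 + ((L.V : ℝ) + L'.V + 1) * e2 := by
      intro ξ _ hξ
      exact pr_cat_fail adm _ _ τ τ (k := ht ξ 0) rfl (st2 ξ hξ) (by positivity)
        (fun ζ _ hζ => st3 ζ hζ)
    have st5 := pr_cat_fail adm _ _ τ (τ + τ) (k := ht η 0) rfl st1 (by positivity) st4
    have e3 : 3 * τ = τ + (τ + τ) := by ring
    rw [e3]
    refine (pr_mono adm _ _ ?_ η).trans (st5.trans (le_of_eq (by ring)))
    intro ξ hξ hcon
    apply hξ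
    rw [hEC] at hcon
    obtain ⟨⟨q1, q2⟩, q3⟩ := hcon
    refine ⟨q1, q2, ?_⟩
    unfold bb_bal at hbal ⊢
    have m1 := bb_mis hD.val hL hp
    have m2 := bb_mis hD.val' hL' hp'
    rw [q3]
    omega

lemma bb_main (hPAR : ST_PAR) (hMIR : ST_MIR) (hLOC : ST_LOC) (hBBA : ST_BBA) {N : ℕ}
    {r l : ℕ → ℝ} {A B x0 w τ : ℕ} {e1 e2 : ℝ} {L L' : BD}
    (hD : bb_D N r l A B x0 w τ e1 e2 L L') {v1 p1 v1' p1' : ℕ}
    (hL1 : L.Leg v1 p1) (hL1' : L'.Leg v1' p1') :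
    ∀ (n v p v' p' : ℕ), L.Leg v p → L'.Leg v' p' → L.rem v p = L.rem v1 p1 + n →
    L'.rem v' p' = L'.rem v1' p1' + n →
    ∃ σ : ℕ → Finset ℕ, (∀ i, σ i ⊆ Finset.Ioo A B) ∧
      ∀ η : Cfg N, η ∈ (L.Pat v p : Set (Cfg N)) → mir η ∈ (L'.Pat v' p' : Set (Cfg N)) →
        bb_bal A B x0 L L' v p v' p' η →
        pr r l σ (3 * τ * n) {ξ | ξ ∈ (L.Pat v1 p1 : Set (Cfg N)) ∧
          mir ξ ∈ (L'.Pat v1' p1' : Set (Cfg N))}ᶜ η ≤
          n * ((2 * L.V + 2 * L'.V + 2) * e1 + (L.V + L'.V + 1) * e2) := by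
  have hN := hD.hN
  have hB := hD.hB
  have hx := hD.lx
  have hx' := hD.lx'
  have he1 := hD.he1
  have he2 := hD.he2
  intro n
  induction n with
  | zero =>
    intro v p v' p' hL hL' hr hr'
    refine ⟨fun _ => ∅, fun _ => Finset.empty_subset _, ?_⟩
    intro η h h' _
    rw [bb_fin hBBA hD.val (by omega) hL hL1 hr] at h
    rw [bb_fin hBBA hD.val' (by omega) hL' hL1' hr'] at h'
    have e0 : 3 * τ * 0 = 0 := rfl
    rw [e0]
    unfold pr
    rw [ev_zero, ind_of_not_mem (by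
      intro hc
      exact hc ⟨h, h'⟩)]
    simp
  | succ n ih =>
    intro v p v' p' hL hL' hr hr'
    obtain ⟨v2, p2, g1, g2, g3, g4, g5⟩ := bb_norm hBBA (N := N) hD.val (by omega) hL (by omega)
    obtain ⟨v2', p2', g1', g2', g3', g4', g5'⟩ :=
      bb_norm hBBA (N := N) hD.val' (by omega) hL' (by omega)
    obtain ⟨σ1, s1, s2⟩ := bb_step hPAR hMIR hLOC hBBA hD g1 g2 g1' g2'
    have r1 := bb_rem g2
    have r2 := bb_rem g2'
    obtain ⟨u1, u2, u3, u4⟩ := g1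
    obtain ⟨u1', u2', u3', u4'⟩ := g1'
    obtain ⟨σ2, t1, t2⟩ := ih v2 (p2 - 1) v2' (p2' - 1) ⟨u1, u2, by omega, by omega⟩
      ⟨u1', u2', by omega, by omega⟩ (by omega) (by omega)
    refine ⟨cat (3 * τ) σ1 σ2, ?_, ?_⟩
    · intro i
      unfold cat
      split_ifs
      · exact s1 i
      · exact t1 _
    · intro η h h' hbal
      rw [← g3] at h
      rw [← g3'] at h'
      have hbal2 : bb_bal A B x0 L L' v2 p2 v2' p2' η := by
        unfold bb_bal at hbal ⊢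
        rw [g5, g5']
        exact hbal
      have w1 := s2 η h h' hbal2
      have w2 := pr_cat_fail hD.adm σ1 σ2 (3 * τ) (3 * τ * n) (k := ht η 0) rfl w1
        (b := n * ((2 * L.V + 2 * L'.V + 2) * e1 + (L.V + L'.V + 1) * e2)) (by positivity)
        (fun ξ _ hξ => t2 ξ hξ.1 hξ.2.1 hξ.2.2)
      have e3 : 3 * τ * (n + 1) = 3 * τ + 3 * τ * n := by ring
      rw [e3]
      refine w2.trans (le_of_eq ?_)
      push_cast
      ring

theorem st_BB (h1 : ST_BBA) (h2 : ST_PAR) (h3 : ST_MIR) (h4 : ST_LOC) : ST_BB := by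
  intro N r l A B x0 w n τ e1 e2 L L' v p v1 p1 v' p' v1' p1' hAdm hA hB hN he1 he2 hV hV'
    lA lx lw lA' lx' lw' hL hL1 hL' hL1' hr hr' hH hH' hcen
  have hD : bb_D N r l A B x0 w τ e1 e2 L L' :=
    ⟨hAdm, hA, hB, hN, he1, he2, hV, hV', lA, lx, lw, lA', lx', lw', hH, hH', hcen⟩
  obtain ⟨σ, s1, s2⟩ := bb_main h2 h3 h4 h1 hD hL1 hL1' n v p v' p' hL hL' hr hr'
  refine ⟨σ, s1, ?_⟩
  intro η h h' hc
  exact s2 η h h' hc

end Pool.Agent.Helper98.EX
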