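import Pool.Agent.Helper98.EY.StmtsC

/-!
# C12. Crossing phase at all barriers
-/

set_option autoImplicit false

namespace Pool.Agent.Helper98.EX

open Finset

variable {N : ℕ}

/-! ### counts -/

theorem msb_cnt_split (η : Cfg N) {A B C : ℕ} (h1 : A ≤ B) (h2 : B ≤ C) :
    cnt η A C = cnt η A B + cnt η B C := by
  unfold cnt
  rw [Finset.sum_Ico_consecutive _ h1 h2]

theorem msb_cnt_le (η : Cfg N) (A B : ℕ) : cnt η A B ≤ B - A := by
  unfold cnt
  have h1 : ∑ i ∈ Finset.Ico A B, (if occ η i = true then 1 else 0) ≤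
      ∑ i ∈ Finset.Ico A B, 1 := by
    apply Finset.sum_le_sum
    intro i _
    split_ifs <;> omega
  have h2 : ∑ i ∈ Finset.Ico A B, 1 = B - A := by simp
  omega

theorem msb_cnt_true (η : Cfg N) {A B : ℕ} (h : ∀ x, A ≤ x → x < B → occ η x = true) :
    cnt η A B = B - A := by
  unfold cnt
  have h1 : ∑ i ∈ Finset.Ico A B, (if occ η i = true then 1 else 0) =
      ∑ i ∈ Finset.Ico A B, 1 := by
    apply Finset.sum_congr rfl
    intro x hx
    rw [Finset.mem_Ico] at hx
    rw [if_pos (h x hx.1 hx.2)]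
  rw [h1]
  simp

theorem msb_cnt_false (η : Cfg N) {A B : ℕ} (h : ∀ x, A ≤ x → x < B → occ η x = false) :
    cnt η A B = 0 := by
  unfold cnt
  apply Finset.sum_eq_zero
  intro x hx
  rw [Finset.mem_Ico] at hx
  rw [h x hx.1 hx.2]; simp

theorem msb_cnt_congr {η ξ : Cfg N} {A B : ℕ} (h : ∀ x, A ≤ x → x < B → occ η x = occ ξ x) :
    cnt η A B = cnt ξ A B := by
  unfold cnt
  apply Finset.sum_congr rfl
  intro x hx
  rw [Finset.mem_Ico] at hx
  rw [h x hx.1 hx.2]

/-! ### windows -/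

/-- windows `[c i - Q, c i + Q)` -/
structure MsbW (N Q : ℕ) (I : Finset ℕ) (c : ℕ → ℕ) : Prop where
  lo : ∀ i ∈ I, Q ≤ c i
  hi : ∀ i ∈ I, c i + Q ≤ N
  dj : ∀ i ∈ I, ∀ j ∈ I, i ≠ j → c i + Q + Q ≤ c j ∨ c j + Q + Q ≤ c i

theorem msb_out {Q : ℕ} {I : Finset ℕ} {c : ℕ → ℕ} (hW : MsbW N Q I c) {η ξ : Cfg N}
    (hocc : ∀ x, (∀ i ∈ I, x + Q < c i ∨ c i + Q ≤ x) → occ ξ x = occ η x)
    (hcnt : ∀ i ∈ I, cnt ξ (c i - Q) (c i + Q) = cnt η (c i - Q) (c i + Q)) :
    ∀ y, (∀ i ∈ I, y + Q ≤ c i ∨ c i + Q ≤ y) → ht ξ y = ht η y := by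
  have key : ∀ d y, N ≤ y + d → (∀ i ∈ I, y + Q ≤ c i ∨ c i + Q ≤ y) → ht ξ y = ht η y := by
    intro d
    induction d using Nat.strong_induction_on with
    | _ d ih =>
      intro y hd hy
      rcases Nat.lt_or_ge y N with hyN | hyN
      swap
      · rw [ht_ge hyN, ht_ge hyN]
      by_cases hw : ∃ i ∈ I, c i ≤ y + Q ∧ y < c i + Q
      · obtain ⟨i, hi, h1, h2⟩ := hw
        have h3 : y + Q = c i := by
          rcases hy i hi with h | h
          · omega
          · omega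
        have hlo := hW.lo i hi
        have hhi := hW.hi i hi
        have e : y = c i - Q := by omega
        have a1 := ht_cnt ξ (A := y) (B := c i + Q) (by omega) hhi
        have a2 := ht_cnt η (A := y) (B := c i + Q) (by omega) hhi
        have a3 : ht ξ (c i + Q) = ht η (c i + Q) := by
          apply ih (d - 2 * Q) (by omega) (c i + Q) (by omega)
          intro j hj
          by_cases hij : j = i
          · subst hij; right; omega
          · rcases hW.dj j hj i hi hij with h | h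
            · right; omega
            · left; omega
        have a4 := hcnt i hi
        rw [← e] at a4
        omega
      · push Not at hw
        have a0 : occ ξ y = occ η y := by
          apply hocc
          intro i hi
          have := hw i hi
          by_cases h : c i ≤ y + Q
          · right; exact this h
          · left; omega
        have a5 : ht ξ (y + 1) = ht η (y + 1) := by
          apply ih (d - 1) (by omega) (y + 1) (by omega)
          intro i hi
          have := hw i hi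
          by_cases h : c i ≤ y + Q
          · right; have := this h; omega
          · left; omega
        rw [ht_succ ξ hyN, ht_succ η hyN, a0, a5]
  intro y hy
  exact key N y (by omega) hy

/-- `ζ` is obtained from the step-like state `η` by moving `g i` particles over `c i` -/
structure MsbP (N Q : ℕ) (I : Finset ℕ) (c g : ℕ → ℕ) (η ζ : Cfg N) : Prop where
  out : ∀ x, (∀ i ∈ I, x + Q < c i ∨ c i + Q ≤ x) → occ ζ x = occ η x
  p1 : ∀ i ∈ I, ∀ x, c i ≤ x + Q → x + g i < c i → occ ζ x = true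
  p2 : ∀ i ∈ I, ∀ x, c i ≤ x + g i → x < c i → occ ζ x = false
  p3 : ∀ i ∈ I, ∀ x, c i ≤ x → x < c i + g i → occ ζ x = true
  p4 : ∀ i ∈ I, ∀ x, c i + g i ≤ x → x < c i + Q → occ ζ x = false

theorem msb_P_cnt {Q : ℕ} {I : Finset ℕ} {c g : ℕ → ℕ} (hW : MsbW N Q I c) {η ζ : Cfg N}
    (hP : MsbP N Q I c g η ζ) (hg : ∀ i ∈ I, g i ≤ Q) {i : ℕ} (hi : i ∈ I) :
    cnt ζ (c i) (c i + Q) = g i ∧ cnt ζ (c i - Q) (c i + Q) = Q := by
  have hlo := hW.lo i hi
  have hgi := hg i hi
  have h1 : cnt ζ (c i) (c i + Q) = g i := by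
    rw [msb_cnt_split ζ (B := c i + g i) (by omega) (by omega),
      msb_cnt_true ζ (fun x h1 h2 => hP.p3 i hi x h1 h2),
      msb_cnt_false ζ (fun x h1 h2 => hP.p4 i hi x h1 h2)]
    omega
  refine ⟨h1, ?_⟩
  rw [msb_cnt_split ζ (B := c i) (by omega) (by omega), h1,
    msb_cnt_split ζ (A := c i - Q) (B := c i - g i) (C := c i) (by omega) (by omega),
    msb_cnt_true ζ (A := c i - Q) (B := c i - g i)
      (fun x h1 h2 => hP.p1 i hi x (by omega) (by omega)),
    msb_cnt_false ζ (A := c i - g i) (B := c i)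
      (fun x h1 h2 => hP.p2 i hi x (by omega) (by omega))]
  omega

theorem msb_cmp {Q : ℕ} {I : Finset ℕ} {c g : ℕ → ℕ} (hW : MsbW N Q I c) {η ζ ξ : Cfg N}
    (hP : MsbP N Q I c g η ζ) (hg : ∀ i ∈ I, g i ≤ Q) {i : ℕ} (hi : i ∈ I)
    (hc : cnt ξ (c i - Q) (c i + Q) = Q) (hgc : g i ≤ cnt ξ (c i) (c i + Q)) {y : ℕ}
    (h1 : c i ≤ y + Q) (h2 : y ≤ c i + Q) :
    cnt ζ y (c i + Q) ≤ cnt ξ y (c i + Q) := by
  have hlo := hW.lo i hi
  have hgi := hg i hi
  rcases Nat.lt_or_ge y (c i) with hy | hy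
  · -- left of the center
    have e1 := msb_cnt_split ζ (A := y) (B := c i) (C := c i + Q) (by omega) (by omega)
    rw [(msb_P_cnt hW hP hg hi).1] at e1
    have e2 := msb_cnt_split ζ (A := y) (B := max y (c i - g i)) (C := c i) (by omega) (by omega)
    have e3 := msb_cnt_le ζ y (max y (c i - g i))
    have e4 : cnt ζ (max y (c i - g i)) (c i) = 0 :=
      msb_cnt_false ζ (fun x h1 h2 => hP.p2 i hi x (by omega) (by omega))
    have f1 := msb_cnt_split ξ (A := c i - Q) (B := y) (C := c i + Q) (by omega) (by omega)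
    have f2 := msb_cnt_le ξ (c i - Q) y
    have f3 := msb_cnt_split ξ (A := y) (B := c i) (C := c i + Q) (by omega) (by omega)
    omega
  · have e1 : cnt ζ y (c i + Q) ≤ c i + g i - y := by
      rcases Nat.lt_or_ge y (c i + g i) with h | h
      · rw [msb_cnt_split ζ (B := c i + g i) (by omega) (by omega),
          msb_cnt_false ζ (A := c i + g i) (B := c i + Q) (fun x h1 h2 => hP.p4 i hi x h1 h2)]
        have := msb_cnt_le ζ y (c i + g i)
        omega
      · rw [msb_cnt_false ζ (fun x h1 h2 => hP.p4 i hi x (by omega) h2)]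
        omega
    have f1 := msb_cnt_split ξ (A := c i) (B := y) (C := c i + Q) (by omega) (by omega)
    have f2 := msb_cnt_le ξ (c i) y
    omega

theorem msb_hle {Q : ℕ} {I : Finset ℕ} {c g : ℕ → ℕ} (hW : MsbW N Q I c) {η ζ ξ : Cfg N}
    (hP : MsbP N Q I c g η ζ) (hg : ∀ i ∈ I, g i ≤ Q)
    (hocc : ∀ x, (∀ i ∈ I, x + Q < c i ∨ c i + Q ≤ x) → occ ξ x = occ η x)
    (hc : ∀ i ∈ I, cnt ξ (c i - Q) (c i + Q) = Q)
    (hgc : ∀ i ∈ I, g i ≤ cnt ξ (c i) (c i + Q)) : hle 0 ζ ξ := by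
  have key := msb_out hW (η := ζ) (ξ := ξ)
    (fun x hx => (hocc x hx).trans (hP.out x hx).symm)
    (fun i hi => (hc i hi).trans (msb_P_cnt hW hP hg hi).2.symm)
  intro y
  rw [add_zero]
  by_cases hy : ∀ i ∈ I, y + Q ≤ c i ∨ c i + Q ≤ y
  · exact (key y hy).symm.le
  · push Not at hy
    obtain ⟨i, hi, h1, h2⟩ := hy
    have hhi := hW.hi i hi
    have a1 := ht_cnt ζ (A := y) (B := c i + Q) (by omega) hhi
    have a2 := ht_cnt ξ (A := y) (B := c i + Q) (by omega) hhi
    have a3 : ht ξ (c i + Q) = ht ζ (c i + Q) := by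
      apply key
      intro j hj
      by_cases hij : j = i
      · subst hij; right; omega
      · rcases hW.dj j hj i hi hij with h | h
        · right; omega
        · left; omega
    have a4 := msb_cmp hW hP hg hi (hc i hi) (hgc i hi) (y := y) (by omega) (by omega)
    omega

open Classical in
/-- `g i` particles are moved over the center `c i` -/
noncomputable def msbZ (I : Finset ℕ) (c g : ℕ → ℕ) (η : Cfg N) : Cfg N := fun x =>
  if ∃ i ∈ I, c i ≤ x.val + g i ∧ x.val < c i then false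
  else if ∃ i ∈ I, c i ≤ x.val ∧ x.val < c i + g i then true else η x

open Classical in
theorem msb_occ (I : Finset ℕ) (c g : ℕ → ℕ) (η : Cfg N) {x : ℕ} (hx : x < N) :
    occ (msbZ I c g η) x = if ∃ i ∈ I, c i ≤ x + g i ∧ x < c i then false
      else if ∃ i ∈ I, c i ≤ x ∧ x < c i + g i then true else occ η x := by
  rw [occ_lt hx, occ_lt hx]
  rfl

theorem msb_P_self {Q : ℕ} {I : Finset ℕ} {c : ℕ → ℕ} {η : Cfg N}
    (h1 : ∀ i ∈ I, ∀ x, c i ≤ x + Q → x < c i → occ η x = true)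
    (h2 : ∀ i ∈ I, ∀ x, c i ≤ x → x < c i + Q → occ η x = false) :
    MsbP N Q I c (fun _ => 0) η η where
  out := fun _ _ => rfl
  p1 := fun i hi x a b => h1 i hi x a (by omega)
  p2 := fun i hi x a b => by omega
  p3 := fun i hi x a b => by omega
  p4 := fun i hi x a b => h2 i hi x (by omega) b

theorem msb_P_Z {Q : ℕ} {I : Finset ℕ} {c g : ℕ → ℕ} (hW : MsbW N Q I c) {η : Cfg N}
    (hg : ∀ i ∈ I, g i ≤ Q)
    (h1 : ∀ i ∈ I, ∀ x, c i ≤ x + Q → x < c i → occ η x = true)
    (h2 : ∀ i ∈ I, ∀ x, c i ≤ x → x < c i + Q → occ η x = false) :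
    MsbP N Q I c g η (msbZ I c g η) := by
  have uniq : ∀ i ∈ I, ∀ j ∈ I, ∀ x, c i ≤ x + Q → x < c i + Q → c j ≤ x + Q → x < c j + Q →
      i = j := by
    intro i hi j hj x a1 a2 a3 a4
    by_contra hij
    rcases hW.dj i hi j hj hij with h | h <;> omega
  constructor
  · intro x hx
    rcases Nat.lt_or_ge x N with hxN | hxN
    · rw [msb_occ I c g η hxN, if_neg, if_neg]
      · rintro ⟨i, hi, a, b⟩
        have := hx i hi
        have := hg i hi
        omega
      · rintro ⟨i, hi, a, b⟩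
        have := hx i hi
        have := hg i hi
        omega
    · rw [occ_ge hxN, occ_ge hxN]
  · intro i hi x a b
    have hhi := hW.hi i hi
    have hgi := hg i hi
    rw [msb_occ I c g η (by omega), if_neg, if_neg]
    · exact h1 i hi x a (by omega)
    · rintro ⟨j, hj, a', b'⟩
      have := hg j hj
      have := uniq i hi j hj x (by omega) (by omega) (by omega) (by omega)
      subst this
      omega
    · rintro ⟨j, hj, a', b'⟩
      have := hg j hj
      have := uniq i hi j hj x (by omega) (by omega) (by omega) (by omega)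
      subst this
      omega
  · intro i hi x a b
    have hhi := hW.hi i hi
    rw [msb_occ I c g η (by omega), if_pos ⟨i, hi, a, b⟩]
  · intro i hi x a b
    have hhi := hW.hi i hi
    have hgi := hg i hi
    rw [msb_occ I c g η (by omega), if_neg, if_pos ⟨i, hi, a, b⟩]
    rintro ⟨j, hj, a', b'⟩
    have := hg j hj
    have := uniq i hi j hj x (by omega) (by omega) (by omega) (by omega)
    subst this
    omega
  · intro i hi x a b
    have hhi := hW.hi i hi
    have hgi := hg i hi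
    rw [msb_occ I c g η (by omega), if_neg, if_neg]
    · exact h2 i hi x (by omega) b
    · rintro ⟨j, hj, a', b'⟩
      have := hg j hj
      have := uniq i hi j hj x (by omega) (by omega) (by omega) (by omega)
      subst this
      omega
    · rintro ⟨j, hj, a', b'⟩
      have := hg j hj
      have := uniq i hi j hj x (by omega) (by omega) (by omega) (by omega)
      subst this
      omega

/-! ### numbers -/

theorem msb_num : ∃ N0 : ℕ, ∀ N : ℕ, N0 ≤ N → 3 ≤ Real.log N ∧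
    16 * Real.log N ^ 482 ≤ (N : ℝ) := by
  have h1 : ∀ᶠ N : ℕ in Filter.atTop, 3 ≤ Real.log (N : ℝ) :=
    (Real.tendsto_log_atTop.comp tendsto_natCast_atTop_atTop).eventually_ge_atTop 3
  have h2 : ∀ᶠ x : ℝ in Filter.atTop, ‖Real.log x ^ 482‖ ≤ (1 / 16) * ‖id x‖ :=
    (Real.isLittleO_pow_log_id_atTop (n := 482)).bound (by norm_num)
  have h3 : ∀ᶠ N : ℕ in Filter.atTop, ‖Real.log (N : ℝ) ^ 482‖ ≤ (1 / 16) * ‖id (N : ℝ)‖ :=
    tendsto_natCast_atTop_atTop.eventually h2
  obtain ⟨N0, hN0⟩ := Filter.eventually_atTop.1 (h1.and h3)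
  refine ⟨N0, fun N hN => ?_⟩
  obtain ⟨a, b⟩ := hN0 N hN
  refine ⟨a, ?_⟩
  rw [Real.norm_eq_abs, Real.norm_eq_abs, id, abs_of_nonneg (by positivity : (0 : ℝ) ≤ N)] at b
  have := le_abs_self (Real.log (N : ℝ) ^ 482)
  linarith

theorem msb_gap {p : ℕ} {bb : ℕ → ℕ} (hB : BL N p bb) : ∀ i j, i < j → j ≤ p + 1 →
    (bb i : ℝ) + (N : ℝ) ^ (1 / 2 : ℝ) ≤ bb j := by
  intro i j
  induction j with
  | zero => intro h _; omega
  | succ j ih =>
    intro h1 h2
    have h3 := hB.gap j (by omega)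
    rcases Nat.lt_or_ge i j with h | h
    · have h4 := ih h (by omega)
      have h5 : (0 : ℝ) ≤ (N : ℝ) ^ (1 / 2 : ℝ) := by positivity
      linarith
    · have : i = j := by omega
      subst this
      exact h3

/-! ### the theorem -/

theorem st_MSB (hBC : ST_BCPH) (hPAR : ST_PAR) : ST_MSB := by
  intro C1 δ hδ0 hδ1
  obtain ⟨N1, hN1⟩ := hBC C1 δ hδ0 hδ1
  obtain ⟨N2, hN2⟩ := msb_num
  refine ⟨max N1 N2, ?_⟩
  intro N p w k J bb h h' r l hN hBE h0 h0' hkN hR hR' hJ hh
  obtain ⟨hL3, hL⟩ := hN2 N ((le_max_right _ _).trans hN)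
  have hN1' := hN1 N
  clear hN1 hN2
  obtain ⟨L, hLdef⟩ : ∃ L, L = Real.log N := ⟨_, rfl⟩
  have hQdef : QQ N = ⌈L ^ 241⌉₊ := by rw [hLdef]; rfl
  obtain ⟨Q, hQ⟩ : ∃ Q, Q = QQ N := ⟨_, rfl⟩
  rw [← hLdef] at hL3 hL
  have hL0 : 0 < L := by linarith
  have hL1 : 1 ≤ L := by linarith
  have hNpos : (0 : ℝ) < N := by
    have : 0 < 16 * L ^ 482 := by positivity
    linarith
  have hN1r : (1 : ℝ) ≤ N := by
    have : 1 ≤ L ^ 482 := one_le_pow₀ hL1
    linarith
  have hp240 : 1 ≤ L ^ 240 := one_le_pow₀ hL1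
  have hp241 : 1 ≤ L ^ 241 := one_le_pow₀ hL1
  have hp231 : 1 ≤ L ^ 231 := one_le_pow₀ hL1
  have hQub : (Q : ℝ) ≤ 2 * L ^ 241 := by
    rw [hQ, hQdef]
    have := Nat.ceil_lt_add_one (by positivity : 0 ≤ L ^ 241)
    linarith
  have hQlb : L ^ 241 ≤ (Q : ℝ) := by
    rw [hQ, hQdef]; exact Nat.le_ceil _
  have hsq : 2 * (Q : ℝ) ≤ (N : ℝ) ^ (1 / 2 : ℝ) := by
    rw [← Real.sqrt_eq_rpow]
    apply Real.le_sqrt_of_sq_le
    have h1 : (2 * (Q : ℝ)) ^ 2 ≤ (4 * L ^ 241) ^ 2 := by
      apply pow_le_pow_left₀ (by positivity)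
      linarith
    have h2 : (4 * L ^ 241) ^ 2 = 16 * L ^ 482 := by ring
    linarith
  have h241 : L ^ 240 + 2 ≤ L ^ 241 := by
    have : L ^ 241 = L * L ^ 240 := by ring
    rw [this]
    nlinarith
  have h3240 : 2 * (L ^ 240 + 2) + L ^ 231 ≤ 3 * L ^ 240 := by
    have e : L ^ 240 = L ^ 9 * L ^ 231 := by ring
    have h9 : (3 : ℝ) ^ 9 ≤ L ^ 9 := pow_le_pow_left₀ (by norm_num) hL3 9
    have : L ^ 231 + 4 ≤ L ^ 240 := by
      rw [e]
      nlinarith
    linarith
  obtain ⟨g, hgdef⟩ : ∃ g : ℕ → ℕ, g = fun i => h' i - h i := ⟨_, rfl⟩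
  have hgi : ∀ i, g i = h' i - h i := fun i => by rw [hgdef]
  have hgap := msb_gap hBE.bl
  have hb0 := hBE.bl.b0
  have hbN := hBE.bl.bN
  -- increments
  have hg0 : ∀ i, i ≤ p + 1 → h' i = h i + g i ∧ (g i : ℝ) ≤ L ^ 240 + 2 := by
    intro i hi
    have h3 := hgi i
    by_cases h1 : i = 0
    · subst h1
      have h4 : g 0 = 0 := by omega
      refine ⟨by omega, ?_⟩
      rw [h4, Nat.cast_zero]
      linarith
    · by_cases h2 : i = p + 1
      · subst h2
        have h5 := hR.1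
        have h6 := hR'.1
        have h4 : g (p + 1) = 0 := by omega
        refine ⟨by omega, ?_⟩
        rw [h4, Nat.cast_zero]
        linarith
      · obtain ⟨a, b, _, _⟩ := hh i (by omega) (by omega)
        refine ⟨by omega, ?_⟩
        rw [h3, Nat.cast_sub a, hLdef]
        linarith
  have hgQ : ∀ i, i ≤ p + 1 → g i ≤ Q := by
    intro i hi
    have h1 := (hg0 i hi).2
    have : (g i : ℝ) ≤ Q := by linarith
    exact_mod_cast this
  have hW : MsbW N Q (Finset.Icc 1 p) bb := by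
    constructor
    · intro i hi
      rw [Finset.mem_Icc] at hi
      have h1 := hgap 0 i (by omega) (by omega)
      rw [hb0] at h1
      have h2 : (Q : ℝ) ≤ bb i := by
        have : (0 : ℝ) ≤ (Q : ℝ) := by positivity
        push_cast at h1
        linarith
      exact_mod_cast h2
    · intro i hi
      rw [Finset.mem_Icc] at hi
      have h1 := hgap i (p + 1) (by omega) le_rfl
      rw [hbN] at h1
      have h2 : (bb i : ℝ) + Q ≤ N := by
        have : (0 : ℝ) ≤ (Q : ℝ) := by positivity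
        linarith
      exact_mod_cast h2
    · intro i hi j hj hij
      rw [Finset.mem_Icc] at hi hj
      rcases Nat.lt_or_ge i j with hlt | hge
      · left
        have h1 := hgap i j hlt (by omega)
        have h2 : (bb i : ℝ) + Q + Q ≤ bb j := by linarith
        exact_mod_cast h2
      · right
        have h1 := hgap j i (by omega) (by omega)
        have h2 : (bb j : ℝ) + Q + Q ≤ bb i := by linarith
        exact_mod_cast h2
  -- schedules
  have hS : ∀ i : ℕ, ∃ σ : ℕ → Finset ℕ, i ∈ Finset.Icc 1 p →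
      (∀ t, σ t ⊆ Finset.Ioo (bb i - Q) (bb i + Q)) ∧ ∀ η : Cfg N,
        (∀ x, bb i ≤ x + Q → x < bb i → occ η x = true) →
        (∀ x, bb i ≤ x → x < bb i + Q → occ η x = false) →
        pr r l σ (J * (msN N + mrN N)) {ξ | cnt ξ (bb i) (bb i + Q) < g i} η ≤
          (N : ℝ) ^ (-6 : ℝ) := by
    intro i
    by_cases hi : i ∈ Finset.Icc 1 p
    · have hi' := Finset.mem_Icc.1 hi
      obtain ⟨a, b, c, d⟩ := hh i hi'.1 hi'.2
      have e0 := (hg0 i (by omega)).2
      have hgc : (g i : ℝ) = (h' i : ℝ) - h i := by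
        rw [hgi i]; exact Nat.cast_sub a
      have e1 := hgap 0 i (by omega) (by omega)
      have e2 := hgap i (p + 1) (by omega) le_rfl
      rw [hb0] at e1
      rw [hbN] at e2
      push_cast at e1
      obtain ⟨σ, hσ⟩ := hN1' w (bb i) J (g i) r l ((le_max_left _ _).trans hN) hBE.ge
        (hBE.slow i hi'.1 hi'.2) (hBE.sur i hi'.1 hi'.2) (by linarith) e2 hJ
        (by rw [hgc]; exact c) d (by rw [← hLdef]; exact e0)
      rw [← hQ] at hσ
      exact ⟨σ, fun _ => hσ⟩
    · exact ⟨fun _ => ∅, fun hc => absurd hc hi⟩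
  choose S hS using hS
  refine ⟨fun t => (Finset.Icc 1 p).biUnion (fun i => S i t), ?_, ?_⟩
  · intro t x hx
    rw [Finset.mem_biUnion] at hx
    obtain ⟨i, hi, hxi⟩ := hx
    have h1 := (hS i hi).1 t hxi
    rw [Finset.mem_Ioo] at h1
    have h2 := hW.hi i hi
    rw [full, Finset.mem_Ico]
    omega
  intro ξ0 hξ0
  obtain ⟨hξk, η, hη, hηξ⟩ := hξ0
  have hη' : ∀ i, i ≤ p → ht η (bb i) = h i ∧
      Srt N (bb i) (bb (i + 1)) (xi bb h i) η := by
    intro i hi
    obtain ⟨a, _, c⟩ := hη i hi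
    exact ⟨a, c (by simp)⟩
  have hηk : ht η 0 = k := by
    have := (hη' 0 (by omega)).1
    rw [hb0, h0] at this
    exact this
  have hs1 : ∀ i ∈ Finset.Icc 1 p, ∀ x, bb i ≤ x + Q → x < bb i → occ η x = true := by
    intro i hi x h1 h2
    rw [Finset.mem_Icc] at hi
    obtain ⟨j, rfl⟩ : ∃ j, i = j + 1 := ⟨i - 1, by omega⟩
    have := (hη' j (by omega)).2.2.1 x h2
    rw [← hQ] at this
    exact this h1
  have hs2 : ∀ i ∈ Finset.Icc 1 p, ∀ x, bb i ≤ x → x < bb i + Q → occ η x = false := by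
    intro i hi x h1 h2
    rw [Finset.mem_Icc] at hi
    have := (hη' i (by omega)).2.1 x h1
    rw [← hQ] at this
    exact this h2
  have hgI : ∀ i ∈ Finset.Icc 1 p, g i ≤ Q := by
    intro i hi
    rw [Finset.mem_Icc] at hi
    exact hgQ i (by omega)
  have hP0 : MsbP N Q (Finset.Icc 1 p) bb (fun _ => 0) η η := msb_P_self hs1 hs2
  have hPZ : MsbP N Q (Finset.Icc 1 p) bb g η (msbZ (Finset.Icc 1 p) bb g η) :=
    msb_P_Z hW hgI hs1 hs2
  have hQ0 : ∀ i ∈ Finset.Icc 1 p, (fun _ : ℕ => 0) i ≤ Q := fun i _ => Nat.zero_le _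
  have hcη : ∀ i ∈ Finset.Icc 1 p, cnt η (bb i - Q) (bb i + Q) = Q := fun i hi =>
    (msb_P_cnt hW hP0 hQ0 hi).2
  obtain ⟨ζ, hζ⟩ : ∃ ζ, ζ = msbZ (Finset.Icc 1 p) bb g η := ⟨_, rfl⟩
  rw [← hζ] at hPZ
  have hηζ : hle 0 η ζ := msb_hle hW hP0 hQ0 hPZ.out
    (fun i hi => (msb_P_cnt hW hPZ hgI hi).2) (fun i hi => Nat.zero_le _)
  have hout := msb_out hW (η := η) (ξ := ζ) hPZ.out
    (fun i hi => (msb_P_cnt hW hPZ hgI hi).2.trans (hcη i hi).symm)
  -- heights of `ζ` at the barriers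
  have hζh : ∀ i, i ≤ p → ht ζ (bb i) = h' i := by
    intro i hi
    by_cases hi0 : i = 0
    · subst hi0
      rw [hb0, h0', hout 0 (fun j hj => Or.inl (by have := hW.lo j hj; omega)), hηk]
    · have hiI : i ∈ Finset.Icc 1 p := Finset.mem_Icc.2 ⟨by omega, hi⟩
      have hhi := hW.hi i hiI
      have a1 := ht_cnt ζ (A := bb i) (B := bb i + Q) (by omega) hhi
      have a2 := ht_cnt η (A := bb i) (B := bb i + Q) (by omega) hhi
      have a3 : ht ζ (bb i + Q) = ht η (bb i + Q) := by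
        apply hout
        intro j hj
        by_cases hij : j = i
        · subst hij; right; omega
        · rcases hW.dj j hj i hiI hij with h | h
          · right; omega
          · left; omega
      have a4 := (msb_P_cnt hW hPZ hgI hiI).1
      have a5 := (msb_P_cnt hW hP0 hQ0 hiI).1
      have a6 := (hη' i hi).1
      have a7 := (hg0 i (by omega)).1
      omega
  have hζW : ζ ∈ Wcl N p bb h' (Finset.range (p + 1)) ⌈3 * Real.log N ^ 240⌉₊ := by
    intro i hi
    refine ⟨hζh i hi, fun _ => ?_, fun hc => absurd (Finset.mem_range.2 (by omega)) hc⟩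
    obtain ⟨hr1, hr2⟩ := hR.2 i hi
    obtain ⟨hr1', hr2'⟩ := hR'.2 i hi
    have hv : (0 : ℝ) ≤ Real.log N ^ 243 := by rw [← hLdef]; positivity
    have hbb : bb i ≤ bb (i + 1) := by
      have := hBE.bl.gap i hi
      have h5 : (0 : ℝ) ≤ (N : ℝ) ^ (1 / 2 : ℝ) := by positivity
      have : (bb i : ℝ) ≤ bb (i + 1) := by linarith
      exact_mod_cast this
    have hbN' : bb (i + 1) ≤ N := by
      by_cases hip : i = p
      · subst hip; rw [hbN]
      · have := hW.hi (i + 1) (Finset.mem_Icc.2 ⟨by omega, by omega⟩)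
        omega
    have b1 : h (i + 1) ≤ h i := by
      have : (h (i + 1) : ℝ) ≤ h i := by linarith
      exact_mod_cast this
    have b2 : h' (i + 1) ≤ h' i := by
      have : (h' (i + 1) : ℝ) ≤ h' i := by linarith
      exact_mod_cast this
    have b3 : h i + bb i ≤ h (i + 1) + bb (i + 1) := by
      have : (h i : ℝ) + bb i ≤ h (i + 1) + bb (i + 1) := by linarith
      exact_mod_cast this
    have b4 : h' i + bb i ≤ h' (i + 1) + bb (i + 1) := by
      have : (h' i : ℝ) + bb i ≤ h' (i + 1) + bb (i + 1) := by linarith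
      exact_mod_cast this
    have c1 := hg0 i (by omega)
    have c2 := hg0 (i + 1) (by omega)
    have d1 := (hη' i hi).2.2.2
    have d2 := (hη' i hi).1
    have d3 := hζh i hi
    obtain ⟨x, hx⟩ : ∃ x, x = xi bb h i := ⟨_, rfl⟩
    obtain ⟨x', hx'⟩ : ∃ x', x' = xi bb h' i := ⟨_, rfl⟩
    rw [← hx] at d1
    rw [← hx']
    unfold xi at hx hx'
    have e1 := ht_cnt η (A := bb i) (B := x) (by omega) (by omega)
    have e2 := ht_cnt ζ (A := bb i) (B := x') (by omega) (by omega)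
    have e3 := hηζ x'
    have e4 : ht η x ≤ ht η x' + g (i + 1) := by
      rcases Nat.lt_or_ge x x' with hlt | hge
      · have := ht_le_sub η hlt.le
        omega
      · have := ht_anti η hge
        omega
    have e5 : cnt ζ (bb i) x' ≤ g i + cnt η (bb i) x + g (i + 1) := by omega
    have e6 : (cnt ζ (bb i) x' : ℝ) ≤ 3 * Real.log N ^ 240 := by
      have e7 : (cnt ζ (bb i) x' : ℝ) ≤ g i + cnt η (bb i) x + g (i + 1) := by exact_mod_cast e5
      have c3 := c1.2
      have c4 := c2.2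
      rw [← hLdef] at d1 ⊢
      linarith
    have e8 := Nat.le_ceil (3 * Real.log N ^ 240)
    exact_mod_cast e6.trans e8
  -- monotonicity
  have hInc : Inc k (ind (Up k (Wcl N p bb h' (Finset.range (p + 1))
      ⌈3 * Real.log N ^ 240⌉₊) : Set (Cfg N))) := by
    apply pr_Inc_ind
    intro η1 ξ1 a1 a2 a3 a4
    obtain ⟨_, ζ1, hz1, hz2⟩ := a4
    exact ⟨a2, ζ1, hz1, hle_trans hz2 a3⟩
  have hmono := ev_inc hBE.ge.adm hInc (fun t => (Finset.Icc 1 p).biUnion (fun i => S i t))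
    (J * (msN N + mrN N)) η ξ0 hηk hξk hηξ
  have hpar := hPAR N r l (Finset.Icc 1 p) (fun i => bb i - Q) (fun i => bb i + Q) S
    (J * (msN N + mrN N)) (fun i => {ξ | g i ≤ cnt ξ (bb i) (bb i + Q)})
    (fun _ => (N : ℝ) ^ (-6 : ℝ)) η hBE.ge.adm
    (fun i hi => ⟨by omega, hW.hi i hi⟩)
    (fun i hi j hj hij => by
      have h1 := hW.lo i hi
      have h2 := hW.lo j hj
      rcases hW.dj i hi j hj hij with h | h
      · left; omega
      · right; omega)
    (fun i hi t => (hS i hi).1 t)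
    (fun i hi η1 ξ1 hoc => by
      have : cnt η1 (bb i) (bb i + Q) = cnt ξ1 (bb i) (bb i + Q) :=
        msb_cnt_congr (fun x h1 h2 => hoc x (by omega) h2)
      show g i ≤ cnt η1 (bb i) (bb i + Q) ↔ g i ≤ cnt ξ1 (bb i) (bb i + Q)
      rw [this])
    (fun i hi => by
      refine le_trans (pr_mono hBE.ge.adm _ _ ?_ η) ((hS i hi).2 η (hs1 i hi) (hs2 i hi))
      intro ξ1 hξ1
      have : ¬ g i ≤ cnt ξ1 (bb i) (bb i + Q) := hξ1
      show cnt ξ1 (bb i) (bb i + Q) < g i
      omega)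
  have hsum : ∑ i ∈ Finset.Icc 1 p, (fun _ : ℕ => (N : ℝ) ^ (-6 : ℝ)) i ≤
      (N : ℝ) ^ (-5 : ℝ) / 2 := by
    rw [Finset.sum_const, Nat.card_Icc, nsmul_eq_mul, Nat.add_sub_cancel]
    have h1 := hBE.card
    rw [← hLdef] at h1
    have h2 : L ^ 466 ≤ L ^ 482 := pow_le_pow_right₀ hL1 (by norm_num)
    have h3 : (p : ℝ) ≤ N / 2 := by
      have : 0 ≤ L ^ 482 := by positivity
      linarith
    have h4 : (N : ℝ) ^ (-5 : ℝ) = N * (N : ℝ) ^ (-6 : ℝ) := by
      have : (-5 : ℝ) = 1 + (-6) := by norm_num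
      rw [this, Real.rpow_add hNpos, Real.rpow_one]
    rw [h4]
    have h5 : (0 : ℝ) ≤ (N : ℝ) ^ (-6 : ℝ) := by positivity
    nlinarith
  have hfin : pr r l (fun t => (Finset.Icc 1 p).biUnion (fun i => S i t))
      (J * (msN N + mrN N)) (Up k (Wcl N p bb h' (Finset.range (p + 1))
      ⌈3 * Real.log N ^ 240⌉₊))ᶜ η ≤ (N : ℝ) ^ (-5 : ℝ) / 2 := by
    refine le_trans (pr_mono_sector hBE.ge.adm _ _ ?_ hηk) (hpar.trans hsum)
    intro ξ hξk' hξE hgood
    apply hξE
    obtain ⟨hg1, hg2⟩ := hgood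
    refine ⟨hξk', ζ, hζW, ?_⟩
    apply msb_hle hW hPZ hgI
    · intro x hx
      apply hg2
      intro i hi
      have := hx i hi
      have := hW.lo i hi
      omega
    · intro i hi
      exact ((hg1 i hi).2).trans (hcη i hi)
    · intro i hi
      exact (hg1 i hi).1
  rw [pr_compl] at hfin ⊢
  unfold pr at hfin ⊢
  linarith

end Pool.Agent.Helper98.EX
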